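import Mathlib

open MeasureTheory Set
open scoped ENNReal NNReal

namespace Pool.Agent.helper96

/-- Entropy functional `E[g log g] - E[g] log E[g]`. -/
noncomputable def ent {X : Type*} [MeasurableSpace X] (μ : Measure X) (g : X → ℝ) : ℝ :=
  ∫ x, g x * Real.log (g x) ∂μ - (∫ x, g x ∂μ) * Real.log (∫ x, g x ∂μ)

theorem mul_log_ge {a b : ℝ} (ha : 0 ≤ a) (hb : 0 < b) :
    a * Real.log b + a - b ≤ a * Real.log a := by
  rcases ha.eq_or_lt with rfl | ha
  · simp; linarith
  · have h1 : Real.log (b / a) ≤ b / a - 1 := Real.log_le_sub_one_of_pos (by positivity)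
    rw [Real.log_div hb.ne' ha.ne'] at h1
    have h2 : a * (Real.log b - Real.log a) ≤ a * (b / a - 1) := by gcongr
    have h3 : a * (b / a - 1) = b - a := by field_simp
    nlinarith

theorem ent_congr_ae {X : Type*} [MeasurableSpace X] {μ : Measure X} {g g' : X → ℝ}
    (h : g =ᵐ[μ] g') : ent μ g = ent μ g' := by
  unfold ent
  rw [integral_congr_ae h]
  congr 1
  apply integral_congr_ae
  filter_upwards [h] with x hx
  rw [hx]

theorem ent_le {X : Type*} [MeasurableSpace X] {μ : Measure X} [IsProbabilityMeasure μ]
    {g : X → ℝ} (hg0 : 0 ≤ᵐ[μ] g) (hg : Integrable g μ)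
    (hgl : Integrable (fun x => g x * Real.log (g x)) μ) {τ : ℝ} (hτ : 0 < τ) :
    ent μ g ≤ ∫ x, (g x * Real.log (g x) - g x * Real.log τ - g x + τ) ∂μ := by
  have h0 : 0 ≤ ∫ x, g x ∂μ := integral_nonneg_of_ae hg0
  have h1 := mul_log_ge h0 hτ
  have e : ∫ x, (g x * Real.log (g x) - g x * Real.log τ - g x + τ) ∂μ =
      ∫ x, g x * Real.log (g x) ∂μ - (∫ x, g x ∂μ) * Real.log τ - ∫ x, g x ∂μ + τ := by
    rw [integral_add, integral_sub, integral_sub, integral_mul_const]
    · simp
    · exact hgl
    · exact hg.mul_const _
    · exact hgl.sub (hg.mul_const _)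
    · exact hg
    · exact (hgl.sub (hg.mul_const _)).sub hg
    · exact integrable_const _
  rw [e]
  unfold ent
  linarith

theorem abs_mul_log_le {M u : ℝ} (h0 : 0 ≤ u) (h1 : u ≤ M) :
    |u * Real.log u| ≤ 1 + M * M := by
  rcases h0.eq_or_lt with rfl | h0
  · simp; positivity
  · rw [abs_le]
    constructor
    · have := mul_log_ge h0.le one_pos
      simp at this
      nlinarith [mul_self_nonneg M]
    · have : Real.log u ≤ u - 1 := Real.log_le_sub_one_of_pos h0
      have h2 : u * Real.log u ≤ u * (u - 1) := by gcongr
      nlinarith [mul_self_nonneg M]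

theorem integrable_of_bdd {X : Type*} [MeasurableSpace X] {μ : Measure X} [IsFiniteMeasure μ]
    {g : X → ℝ} (hg : AEStronglyMeasurable g μ) {M : ℝ} (h : ∀ᵐ x ∂μ, |g x| ≤ M) :
    Integrable g μ :=
  Integrable.of_bound hg M h

theorem integrable_mul_log {X : Type*} [MeasurableSpace X] {μ : Measure X} [IsFiniteMeasure μ]
    {g : X → ℝ} (hg : Measurable g) {M : ℝ} (h0 : ∀ x, 0 ≤ g x) (h : ∀ x, g x ≤ M) :
    Integrable (fun x => g x * Real.log (g x)) μ :=
  integrable_of_bdd (hg.mul (Real.measurable_log.comp hg)).aestronglyMeasurable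
    (Filter.Eventually.of_forall fun x => abs_mul_log_le (h0 x) (h x))

/-- Subadditivity of entropy for products, bounded case. -/
theorem ent_prod_le {X Y : Type*} [MeasurableSpace X] [MeasurableSpace Y] {μ : Measure X}
    {ν : Measure Y} [IsProbabilityMeasure μ] [IsProbabilityMeasure ν] {g : X × Y → ℝ}
    (hg : Measurable g) {M : ℝ} (h0 : ∀ p, 0 ≤ g p) (hM : ∀ p, g p ≤ M) :
    ent (μ.prod ν) g ≤
      ∫ y, ent μ (fun x => g (x, y)) ∂ν + ∫ x, ent ν (fun y => g (x, y)) ∂μ := by
  set φ : ℝ → ℝ := fun u => u * Real.log u with hφ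
  have hφm : Measurable φ := measurable_id.mul Real.measurable_log
  set m : Y → ℝ := fun y => ∫ x, g (x, y) ∂μ with hm
  set G : X → ℝ := fun x => ∫ y, g (x, y) ∂ν with hG
  set T : ℝ := ∫ p, g p ∂(μ.prod ν) with hT
  have hgi : Integrable g (μ.prod ν) := integrable_of_bdd hg.aestronglyMeasurable
    (Filter.Eventually.of_forall fun p => by rw [abs_of_nonneg (h0 p)]; exact hM p)
  have hφg : Integrable (fun p => φ (g p)) (μ.prod ν) := integrable_mul_log hg h0 hM
  have hmm : Measurable m := by
    exact (hg.stronglyMeasurable.integral_prod_left').measurable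
  have hGm : Measurable G := by
    exact (hg.stronglyMeasurable.integral_prod_right').measurable
  have hm0 : ∀ y, 0 ≤ m y := fun y => integral_nonneg fun x => h0 _
  have hG0 : ∀ x, 0 ≤ G x := fun x => integral_nonneg fun y => h0 _
  have hgx : ∀ y, Integrable (fun x => g (x, y)) μ := fun y =>
    integrable_of_bdd (hg.comp (measurable_id.prodMk measurable_const)).aestronglyMeasurable
      (Filter.Eventually.of_forall fun x => by rw [abs_of_nonneg (h0 _)]; exact hM _)
  have hgy : ∀ x, Integrable (fun y => g (x, y)) ν := fun x =>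
    integrable_of_bdd (hg.comp (measurable_const.prodMk measurable_id)).aestronglyMeasurable
      (Filter.Eventually.of_forall fun y => by rw [abs_of_nonneg (h0 _)]; exact hM _)
  have hmM : ∀ y, m y ≤ M := fun y => by
    calc m y ≤ ∫ _x, M ∂μ := integral_mono (hgx y) (integrable_const _) fun x => hM _
      _ = M := by simp
  have hGM : ∀ x, G x ≤ M := fun x => by
    calc G x ≤ ∫ _y, M ∂ν := integral_mono (hgy x) (integrable_const _) fun y => hM _
      _ = M := by simp
  have hTm : ∫ y, m y ∂ν = T := by
    rw [hT, integral_prod_symm _ hgi]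
  have hTG : ∫ x, G x ∂μ = T := by
    rw [hT, integral_prod _ hgi]
  have e1 : ∫ y, ent μ (fun x => g (x, y)) ∂ν = ∫ p, φ (g p) ∂(μ.prod ν) - ∫ y, φ (m y) ∂ν := by
    unfold ent
    rw [integral_sub, integral_prod_symm _ hφg]
    · exact hφg.integral_prod_right
    · exact integrable_mul_log hmm hm0 hmM
  have e2 : ∫ x, ent ν (fun y => g (x, y)) ∂μ = ∫ p, φ (g p) ∂(μ.prod ν) - ∫ x, φ (G x) ∂μ := by
    unfold ent
    rw [integral_sub, integral_prod _ hφg]
    · exact hφg.integral_prod_left
    · exact integrable_mul_log hGm hG0 hGM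
  have e0 : ent (μ.prod ν) g = ∫ p, φ (g p) ∂(μ.prod ν) - φ T := rfl
  rw [e0, e1, e2]
  suffices h : ∫ y, φ (m y) ∂ν + ∫ x, φ (G x) ∂μ ≤ ∫ p, φ (g p) ∂(μ.prod ν) + φ T by linarith
  have hT0 : 0 ≤ T := integral_nonneg h0
  rcases hT0.eq_or_lt with hT0 | hT0
  · -- degenerate case
    have hz : g =ᵐ[μ.prod ν] 0 := (integral_eq_zero_iff_of_nonneg h0 hgi).mp hT0.symm
    have hz1 : ∫ p, φ (g p) ∂(μ.prod ν) = 0 := by
      rw [integral_eq_zero_of_ae]
      filter_upwards [hz] with p hp
      simp [hφ, hp]
    have hz2 : m =ᵐ[ν] 0 := by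
      refine (integral_eq_zero_iff_of_nonneg hm0 ?_).mp (by rw [hTm]; exact hT0.symm)
      exact integrable_of_bdd hmm.aestronglyMeasurable
        (Filter.Eventually.of_forall fun y => by rw [abs_of_nonneg (hm0 y)]; exact hmM y)
    have hz3 : G =ᵐ[μ] 0 := by
      refine (integral_eq_zero_iff_of_nonneg hG0 ?_).mp (by rw [hTG]; exact hT0.symm)
      exact integrable_of_bdd hGm.aestronglyMeasurable
        (Filter.Eventually.of_forall fun y => by rw [abs_of_nonneg (hG0 y)]; exact hGM y)
    have hz4 : ∫ y, φ (m y) ∂ν = 0 := by
      rw [integral_eq_zero_of_ae]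
      filter_upwards [hz2] with p hp
      simp [hφ, hp]
    have hz5 : ∫ y, φ (G y) ∂μ = 0 := by
      rw [integral_eq_zero_of_ae]
      filter_upwards [hz3] with p hp
      simp [hφ, hp]
    rw [hz1, hz4, hz5, ← hT0]
    simp [hφ]
  · -- main case
    have hmi : Integrable m ν := integrable_of_bdd hmm.aestronglyMeasurable
      (Filter.Eventually.of_forall fun y => by rw [abs_of_nonneg (hm0 y)]; exact hmM y)
    have hGi : Integrable G μ := integrable_of_bdd hGm.aestronglyMeasurable
      (Filter.Eventually.of_forall fun y => by rw [abs_of_nonneg (hG0 y)]; exact hGM y)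
    have hφm' : Integrable (fun y => φ (m y)) ν := integrable_mul_log hmm hm0 hmM
    have hφG' : Integrable (fun x => φ (G x)) μ := integrable_mul_log hGm hG0 hGM
    -- vanishing sets
    have hv1 : ∀ᵐ p ∂(μ.prod ν), m p.2 = 0 → g p = 0 := by
      set F : X × Y → ℝ := fun p => (if m p.2 = 0 then 1 else 0) * g p with hF
      have hFm : Measurable F :=
        (Measurable.ite ((measurableSet_eq_fun hmm measurable_const).preimage measurable_snd)
          measurable_const measurable_const).mul hg
      have hFi : Integrable F (μ.prod ν) := by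
        refine integrable_of_bdd (M := M) hFm.aestronglyMeasurable
          (Filter.Eventually.of_forall fun p => ?_)
        simp only [hF]
        split_ifs
        · rw [one_mul, abs_of_nonneg (h0 p)]; exact hM p
        · simp; exact (h0 p).trans (hM p)
      have hF0 : ∫ p, F p ∂(μ.prod ν) = 0 := by
        rw [integral_prod_symm _ hFi]
        apply integral_eq_zero_of_ae
        refine Filter.Eventually.of_forall fun y => ?_
        simp only [hF, Pi.zero_apply]
        split_ifs with h
        · simpa using h
        · simp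
      have hFn : 0 ≤ F := fun p => by
        simp only [hF, Pi.zero_apply]
        split_ifs
        · simpa using h0 p
        · simp
      have := (integral_eq_zero_iff_of_nonneg hFn hFi).mp hF0
      filter_upwards [this] with p hp hmp
      simpa [hF, hmp] using hp
    have hv2 : ∀ᵐ p ∂(μ.prod ν), G p.1 = 0 → g p = 0 := by
      set F : X × Y → ℝ := fun p => (if G p.1 = 0 then 1 else 0) * g p with hF
      have hFm : Measurable F :=
        (Measurable.ite ((measurableSet_eq_fun hGm measurable_const).preimage measurable_fst)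
          measurable_const measurable_const).mul hg
      have hFi : Integrable F (μ.prod ν) := by
        refine integrable_of_bdd (M := M) hFm.aestronglyMeasurable
          (Filter.Eventually.of_forall fun p => ?_)
        simp only [hF]
        split_ifs
        · rw [one_mul, abs_of_nonneg (h0 p)]; exact hM p
        · simp; exact (h0 p).trans (hM p)
      have hF0 : ∫ p, F p ∂(μ.prod ν) = 0 := by
        rw [integral_prod _ hFi]
        apply integral_eq_zero_of_ae
        refine Filter.Eventually.of_forall fun y => ?_
        simp only [hF, Pi.zero_apply]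
        split_ifs with h
        · simpa using h
        · simp
      have hFn : 0 ≤ F := fun p => by
        simp only [hF, Pi.zero_apply]
        split_ifs
        · simpa using h0 p
        · simp
      have := (integral_eq_zero_iff_of_nonneg hFn hFi).mp hF0
      filter_upwards [this] with p hp hmp
      simpa [hF, hmp] using hp
    -- integrability of the cross terms
    have hi1 : Integrable (fun p : X × Y => g p * Real.log (m p.2)) (μ.prod ν) := by
      have hmeas : Measurable fun p : X × Y => g p * Real.log (m p.2) :=
        hg.mul (Real.measurable_log.comp (hmm.comp measurable_snd))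
      rw [integrable_prod_iff' hmeas.aestronglyMeasurable]
      constructor
      · exact Filter.Eventually.of_forall fun y => (hgx y).mul_const (Real.log (m y))
      · have : (fun y => ∫ x, ‖g (x, y) * Real.log (m y)‖ ∂μ) = fun y => |φ (m y)| := by
          ext y
          simp only [norm_mul, Real.norm_eq_abs]
          rw [integral_mul_const]
          simp only [hφ, abs_mul, abs_of_nonneg (hm0 y)]
          congr 1
          exact integral_congr_ae (Filter.Eventually.of_forall fun x => abs_of_nonneg (h0 _))
        simp only [this]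
        exact hφm'.abs
    have hi2 : Integrable (fun p : X × Y => g p * Real.log (G p.1)) (μ.prod ν) := by
      have hmeas : Measurable fun p : X × Y => g p * Real.log (G p.1) :=
        hg.mul (Real.measurable_log.comp (hGm.comp measurable_fst))
      rw [integrable_prod_iff hmeas.aestronglyMeasurable]
      constructor
      · exact Filter.Eventually.of_forall fun y => (hgy y).mul_const (Real.log (G y))
      · have : (fun x => ∫ y, ‖g (x, y) * Real.log (G x)‖ ∂ν) = fun x => |φ (G x)| := by
          ext x
          simp only [norm_mul, Real.norm_eq_abs]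
          rw [integral_mul_const]
          simp only [hφ, abs_mul, abs_of_nonneg (hG0 x)]
          congr 1
          exact integral_congr_ae (Filter.Eventually.of_forall fun y => abs_of_nonneg (h0 _))
        simp only [this]
        exact hφG'.abs
    have hi3 : Integrable (fun p : X × Y => G p.1 * m p.2) (μ.prod ν) := hGi.mul_prod hmi
    have c1 : ∫ p, g p * Real.log (m p.2) ∂(μ.prod ν) = ∫ y, φ (m y) ∂ν := by
      rw [integral_prod_symm _ hi1]
      congr 1
      ext y
      simp only [hφ]
      rw [integral_mul_const]
    have c2 : ∫ p, g p * Real.log (G p.1) ∂(μ.prod ν) = ∫ x, φ (G x) ∂μ := by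
      rw [integral_prod _ hi2]
      congr 1
      ext x
      simp only [hφ]
      rw [integral_mul_const]
    have c3 : ∫ p, G p.1 * m p.2 ∂(μ.prod ν) = T * T := by
      rw [integral_prod_mul, hTG, hTm]
    have hpt : ∀ᵐ p ∂(μ.prod ν), g p * Real.log (m p.2) + g p * Real.log (G p.1)
        - g p * Real.log T + g p - (G p.1 * m p.2) / T ≤ φ (g p) := by
      filter_upwards [hv1, hv2] with p h1 h2
      by_cases hz : g p = 0
      · simp only [hz, zero_mul, hφ]
        have := mul_nonneg (hG0 p.1) (hm0 p.2)
        have : 0 ≤ (G p.1 * m p.2) / T := by positivity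
        linarith
      · have hmp : 0 < m p.2 := (hm0 _).lt_of_ne fun h => hz (h1 h.symm)
        have hGp : 0 < G p.1 := (hG0 _).lt_of_ne fun h => hz (h2 h.symm)
        have := mul_log_ge (h0 p) (show 0 < (G p.1 * m p.2) / T by positivity)
        rw [Real.log_div (by positivity) hT0.ne', Real.log_mul hGp.ne' hmp.ne'] at this
        simp only [hφ]
        nlinarith
    have hfin := integral_mono_ae ((((hi1.add hi2).sub (hgi.mul_const (Real.log T))).add hgi).sub
      (hi3.div_const T)) hφg hpt
    have hL : ∫ p, (g p * Real.log (m p.2) + g p * Real.log (G p.1)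
        - g p * Real.log T + g p - (G p.1 * m p.2) / T) ∂(μ.prod ν) =
        ∫ y, φ (m y) ∂ν + ∫ x, φ (G x) ∂μ - T * Real.log T + T - T * T / T := by
      rw [integral_sub, integral_add, integral_sub, integral_add, c1, c2, integral_div, c3,
        integral_mul_const]
      · exact hi1
      · exact hi2
      · exact hi1.add hi2
      · exact hgi.mul_const _
      · exact (hi1.add hi2).sub (hgi.mul_const _)
      · exact hgi
      · exact ((hi1.add hi2).sub (hgi.mul_const _)).add hgi
      · exact hi3.div_const T
    have hfin' : ∫ p, (g p * Real.log (m p.2) + g p * Real.log (G p.1)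
        - g p * Real.log T + g p - (G p.1 * m p.2) / T) ∂(μ.prod ν) ≤
        ∫ p, φ (g p) ∂(μ.prod ν) := hfin
    rw [hL] at hfin'
    have : T * T / T = T := by field_simp
    simp only [hφ] at *
    linarith

end Pool.Agent.helper96
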