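import Mathlib
import Pool.Agent.helper96.Ent

open MeasureTheory Set
open scoped ENNReal NNReal

namespace Pool.Agent.helper96

theorem log4_lt : Real.log 4 < 1.3863 := by
  have : Real.log 4 = 2 * Real.log 2 := by
    rw [show (4 : ℝ) = 2 ^ 2 by norm_num, Real.log_pow]; norm_num
  rw [this]
  have := Real.log_two_lt_d9
  linarith

/-- The pointwise bound behind the one-dimensional log-Sobolev inequality. -/
theorem D_bound {c u J R : ℝ} (hJ : 0 < J) (hR : 0 ≤ R) (hu : u ^ 2 ≤ J * Real.exp R) :
    (c + u) ^ 2 * Real.log ((c + u) ^ 2) - (c + u) ^ 2 * Real.log (c ^ 2 + J) - (c + u) ^ 2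
      + (c ^ 2 + J) ≤ (4 * R + 11) * u ^ 2 + J := by
  have hlog4 := log4_lt
  have hτ : 0 < c ^ 2 + J := by positivity
  rcases le_or_gt |c| |u| with h | h
  · -- |c| ≤ |u|
    have hc2 : c ^ 2 ≤ u ^ 2 := sq_le_sq.mpr h
    have hf : (c + u) ^ 2 ≤ 4 * u ^ 2 := by nlinarith [sq_nonneg (c - u)]
    by_cases hf0 : (c + u) ^ 2 = 0
    · rw [hf0]
      simp only [zero_mul]
      nlinarith [sq_nonneg u, mul_nonneg hR (sq_nonneg u)]
    · have hfp : 0 < (c + u) ^ 2 := lt_of_le_of_ne (sq_nonneg _) (Ne.symm hf0)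
      have h1 : Real.log ((c + u) ^ 2) ≤ Real.log 4 + Real.log J + R := by
        have : (c + u) ^ 2 ≤ 4 * (J * Real.exp R) := by linarith
        calc Real.log ((c + u) ^ 2) ≤ Real.log (4 * (J * Real.exp R)) := Real.log_le_log hfp this
          _ = Real.log 4 + Real.log J + R := by
            rw [Real.log_mul (by norm_num) (by positivity), Real.log_mul hJ.ne'
              (Real.exp_pos R).ne', Real.log_exp]
            ring
      have h2 : Real.log J ≤ Real.log (c ^ 2 + J) := Real.log_le_log hJ (by nlinarith [sq_nonneg c])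
      have h3 : (c + u) ^ 2 * (Real.log ((c + u) ^ 2) - Real.log (c ^ 2 + J)) ≤
          (c + u) ^ 2 * (Real.log 4 + R) := by
        apply mul_le_mul_of_nonneg_left _ hfp.le
        linarith
      have hlog4' : 0 < Real.log 4 := Real.log_pos (by norm_num)
      have h4 : (c + u) ^ 2 * (Real.log 4 + R) ≤ 4 * u ^ 2 * (Real.log 4 + R) := by
        apply mul_le_mul_of_nonneg_right hf
        linarith
      nlinarith [sq_nonneg u]
  · -- |u| < |c|
    have hc : c ≠ 0 := by
      rintro rfl
      simp at h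
      exact absurd h (not_lt.mpr (abs_nonneg u))
    have hc2 : 0 < c ^ 2 := by positivity
    have hs : |u / c| < 1 := by
      rw [abs_div, div_lt_one (abs_pos.mpr hc)]
      exact h
    have hs' := abs_lt.mp hs
    have hlog : Real.log ((c + u) ^ 2) ≤ Real.log (c ^ 2) + 2 * (u / c) := by
      have e : (c + u) ^ 2 = c ^ 2 * (1 + u / c) ^ 2 := by field_simp
      have h1 : 0 < 1 + u / c := by linarith [hs'.1]
      rw [e, Real.log_mul hc2.ne' (by positivity), Real.log_pow (n := 2) (x := 1 + u / c)]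
      have := Real.log_le_sub_one_of_pos h1
      push_cast
      linarith
    have hlog2 : Real.log (c ^ 2) ≤ Real.log (c ^ 2 + J) := Real.log_le_log hc2 (by linarith)
    have h3 : (c + u) ^ 2 * (Real.log ((c + u) ^ 2) - Real.log (c ^ 2 + J)) ≤
        (c + u) ^ 2 * (2 * (u / c)) := by
      apply mul_le_mul_of_nonneg_left _ (sq_nonneg _)
      linarith
    have h4 : (c + u) ^ 2 * (2 * (u / c)) = 2 * u * c + 4 * u ^ 2 + 2 * u ^ 2 * (u / c) := by
      field_simp
      ring
    have h5 : 2 * u ^ 2 * (u / c) ≤ 2 * u ^ 2 * 1 := by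
      apply mul_le_mul_of_nonneg_left hs'.2.le (by positivity)
    nlinarith [sq_nonneg u, mul_nonneg hR (sq_nonneg u)]

/-- Weighted Hardy inequalities. -/
theorem hardy {f : ℝ → ℝ} (hf : ContDiff ℝ 1 f) {L : ℝ} (hL : 0 ≤ L) {x : ℝ}
    (hx : x ∈ Icc 0 L) :
    (f x - f 0) ^ 2 * Real.exp (-x) + (1 / 2) * ∫ s in (0)..x, (f s - f 0) ^ 2 * Real.exp (-s) ≤
      2 * ∫ s in (0)..L, (deriv f s) ^ 2 * Real.exp (-s) := by
  have hfc : Continuous f := hf.continuous
  have hf'c : Continuous (deriv f) := hf.continuous_deriv le_rfl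
  have hd : ∀ s, HasDerivAt f (deriv f s) s := fun s =>
    (hf.differentiable one_ne_zero).differentiableAt.hasDerivAt
  have hFTC : ∫ s in (0)..x, (2 * (f s - f 0) * deriv f s - (f s - f 0) ^ 2) * Real.exp (-s) =
      (f x - f 0) ^ 2 * Real.exp (-x) := by
    have := intervalIntegral.integral_eq_sub_of_hasDerivAt
      (f := fun s => (f s - f 0) ^ 2 * Real.exp (-s))
      (f' := fun s => (2 * (f s - f 0) * deriv f s - (f s - f 0) ^ 2) * Real.exp (-s))
      (a := 0) (b := x) (fun s _ => by
        have h1 := ((hd s).sub_const (f 0)).pow 2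
        have h2 : HasDerivAt (fun s => Real.exp (-s)) (Real.exp (-s) * (-1)) s :=
          (hasDerivAt_neg s).exp
        have h3 : HasDerivAt (fun s => (f s - f 0) ^ 2 * Real.exp (-s)) _ s := h1.mul h2
        refine h3.congr_deriv ?_
        show ((2 : ℕ) : ℝ) * (f s - f 0) ^ (2 - 1) * deriv f s * Real.exp (-s) +
          (f s - f 0) ^ 2 * (Real.exp (-s) * -1) = _
        norm_num
        ring) (by
        apply Continuous.intervalIntegrable
        fun_prop)
    rw [this]
    simp
  have hle : ∫ s in (0)..x, (2 * (f s - f 0) * deriv f s - (f s - f 0) ^ 2) * Real.exp (-s) ≤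
      ∫ s in (0)..x, (2 * (deriv f s) ^ 2 * Real.exp (-s) -
        (1 / 2) * ((f s - f 0) ^ 2 * Real.exp (-s))) := by
    apply intervalIntegral.integral_mono_on hx.1
    · apply Continuous.intervalIntegrable; fun_prop
    · apply Continuous.intervalIntegrable; fun_prop
    · intro s _
      have : 0 < Real.exp (-s) := Real.exp_pos _
      nlinarith [mul_nonneg this.le (sq_nonneg ((f s - f 0) - 2 * deriv f s))]
  have hsplit : ∫ s in (0)..x, (2 * (deriv f s) ^ 2 * Real.exp (-s) -
        (1 / 2) * ((f s - f 0) ^ 2 * Real.exp (-s))) =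
      2 * (∫ s in (0)..x, (deriv f s) ^ 2 * Real.exp (-s)) -
        (1 / 2) * (∫ s in (0)..x, (f s - f 0) ^ 2 * Real.exp (-s)) := by
    rw [intervalIntegral.integral_sub, ← intervalIntegral.integral_const_mul,
      ← intervalIntegral.integral_const_mul]
    · simp only [mul_assoc]
    · apply Continuous.intervalIntegrable; fun_prop
    · apply Continuous.intervalIntegrable; fun_prop
  have hmono : ∫ s in (0)..x, (deriv f s) ^ 2 * Real.exp (-s) ≤
      ∫ s in (0)..L, (deriv f s) ^ 2 * Real.exp (-s) := by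
    apply intervalIntegral.integral_mono_interval le_rfl hx.1 hx.2
    · exact Filter.Eventually.of_forall fun s => by positivity
    · apply Continuous.intervalIntegrable; fun_prop
  linarith

end Pool.Agent.helper96
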