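import Mathlib
import Pool.Agent.helper96.LSI1

open MeasureTheory Set
open scoped ENNReal NNReal

namespace Pool.Agent.helper96

/-- Probability measure on `[0, L]` with density proportional to `p`. -/
noncomputable def rho (L : ℝ) (p : ℝ → ℝ) : Measure ℝ :=
  (volume.restrict (Icc 0 L)).withDensity (fun x => ENNReal.ofReal (p x / ∫ y in (0)..L, p y))

section rho

variable {L : ℝ} {p : ℝ → ℝ}

theorem Z_pos (hL : 0 < L) (hp : Continuous p) (hp0 : ∀ x ∈ Icc 0 L, 0 < p x) :
    0 < ∫ y in (0)..L, p y := by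
  apply intervalIntegral.intervalIntegral_pos_of_pos_on (hp.intervalIntegrable _ _) _ hL
  intro x hx
  exact hp0 x (Ioo_subset_Icc_self hx)

theorem lintegral_rho (hp : Continuous p) (F : ℝ → ℝ≥0∞) :
    ∫⁻ x, F x ∂(rho L p) =
      ∫⁻ x in Icc 0 L, ENNReal.ofReal (p x / ∫ y in (0)..L, p y) * F x := by
  unfold rho
  rw [lintegral_withDensity_eq_lintegral_mul_non_measurable₀]
  · rfl
  · exact ((hp.measurable.div_const _).ennreal_ofReal).aemeasurable
  · exact Filter.Eventually.of_forall fun x => ENNReal.ofReal_lt_top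

theorem integral_rho (hL : 0 < L) (hp : Continuous p) (hp0 : ∀ x ∈ Icc 0 L, 0 < p x)
    (F : ℝ → ℝ) :
    ∫ x, F x ∂(rho L p) = (∫ x in (0)..L, p x * F x) / ∫ y in (0)..L, p y := by
  have hZ := Z_pos hL hp hp0
  unfold rho
  rw [integral_withDensity_eq_integral_toReal_smul₀]
  · set Z := ∫ y in (0)..L, p y
    rw [← intervalIntegral.integral_div, intervalIntegral.integral_of_le hL.le,
      ← integral_Icc_eq_integral_Ioc]
    apply setIntegral_congr_fun measurableSet_Icc
    intro x hx
    simp only [smul_eq_mul]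
    rw [ENNReal.toReal_ofReal (div_nonneg (hp0 x hx).le hZ.le)]
    ring
  · exact ((hp.measurable.div_const _).ennreal_ofReal).aemeasurable
  · exact Filter.Eventually.of_forall fun x => ENNReal.ofReal_lt_top

theorem isProbabilityMeasure_rho (hL : 0 < L) (hp : Continuous p)
    (hp0 : ∀ x ∈ Icc 0 L, 0 < p x) : IsProbabilityMeasure (rho L p) := by
  have hZ := Z_pos hL hp hp0
  refine ⟨?_⟩
  unfold rho
  rw [withDensity_apply _ MeasurableSet.univ, Measure.restrict_univ]
  rw [← ofReal_integral_eq_lintegral_ofReal]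
  · rw [integral_Icc_eq_integral_Ioc, ← intervalIntegral.integral_of_le hL.le,
      intervalIntegral.integral_div, div_self hZ.ne']
    simp
  · exact (hp.div_const _).continuousOn.integrableOn_compact isCompact_Icc
  · refine (ae_restrict_iff' measurableSet_Icc).mpr (Filter.Eventually.of_forall fun x hx => ?_)
    exact div_nonneg (hp0 x hx).le hZ.le

theorem ae_mem_rho : ∀ᵐ x ∂(rho L p), x ∈ Icc 0 L := by
  unfold rho
  exact (withDensity_absolutelyContinuous _ _).ae_le (ae_restrict_mem measurableSet_Icc)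

theorem integrable_rho (hL : 0 < L) (hp : Continuous p) (hp0 : ∀ x ∈ Icc 0 L, 0 < p x)
    {F : ℝ → ℝ} (hF : Continuous F) : Integrable F (rho L p) := by
  have := isProbabilityMeasure_rho hL hp hp0
  obtain ⟨M, hM⟩ := isCompact_Icc.exists_bound_of_continuousOn (s := Icc 0 L) hF.continuousOn
  refine integrable_of_bdd (M := M) hF.aestronglyMeasurable ?_
  filter_upwards [ae_mem_rho] with x hx
  exact hM x hx

/-- One-dimensional log-Sobolev inequality. -/
theorem lsi_rho (hL : 0 < L) (hp : Continuous p) {b0 b1 : ℝ} (hb0 : 0 < b0)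
    (hlow : ∀ x ∈ Icc 0 L, b0 * Real.exp (-x) ≤ p x)
    (hup : ∀ x ∈ Icc 0 L, p x ≤ b1 * Real.exp (-x)) {f : ℝ → ℝ} (hf : ContDiff ℝ 1 f) :
    ent (rho L p) (fun x => f x ^ 2) ≤
      (b1 / b0) * (16 * L + 61) * ∫ x, (deriv f x) ^ 2 ∂(rho L p) := by
  have hp0 : ∀ x ∈ Icc 0 L, 0 < p x := fun x hx =>
    lt_of_lt_of_le (by positivity) (hlow x hx)
  have hb1 : 0 < b1 := by
    have h0 : (0 : ℝ) ∈ Icc 0 L := ⟨le_rfl, hL.le⟩
    have := (hp0 0 h0).trans_le (hup 0 h0)
    simpa using this
  have hZ := Z_pos hL hp hp0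
  have hfc : Continuous f := hf.continuous
  have hf'c : Continuous (deriv f) := hf.continuous_deriv le_rfl
  have : IsProbabilityMeasure (rho L p) := isProbabilityMeasure_rho hL hp hp0
  set Z := ∫ y in (0)..L, p y with hZdef
  set J := ∫ s in (0)..L, (deriv f s) ^ 2 * Real.exp (-s) with hJdef
  have hJ0 : 0 ≤ J := intervalIntegral.integral_nonneg hL.le fun s _ => by positivity
  -- bound for J
  have hJle : b0 * J ≤ Z * ∫ x, (deriv f x) ^ 2 ∂(rho L p) := by
    rw [integral_rho hL hp hp0, ← hZdef, mul_div_cancel₀ _ hZ.ne', hJdef,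
      ← intervalIntegral.integral_const_mul]
    apply intervalIntegral.integral_mono_on hL.le
    · apply Continuous.intervalIntegrable; fun_prop
    · apply Continuous.intervalIntegrable; fun_prop
    · intro x hx
      nlinarith [hlow x hx, sq_nonneg (deriv f x)]
  have hlogc : Continuous fun x => f x ^ 2 * Real.log (f x ^ 2) :=
    Real.continuous_mul_log.comp (hfc.pow 2)
  -- main bound
  have key : ∀ J' > J, ent (rho L p) (fun x => f x ^ 2) ≤ (b1 / Z) * (16 * L + 61) * J' := by
    intro J' hJ'
    have hJ'0 : 0 < J' := lt_of_le_of_lt hJ0 hJ'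
    set c := f 0 with hc
    have hτ : 0 < c ^ 2 + J' := by positivity
    have h1 := ent_le (μ := rho L p) (g := fun x => f x ^ 2) (Filter.Eventually.of_forall fun x =>
      sq_nonneg _) (integrable_rho hL hp hp0 (hfc.pow 2)) (integrable_rho hL hp hp0 hlogc) hτ
    refine h1.trans ?_
    rw [integral_rho hL hp hp0, ← hZdef, div_mul_eq_mul_div, div_mul_eq_mul_div]
    apply div_le_div_of_nonneg_right _ hZ.le
    have hpt : ∀ x ∈ Icc 0 L, p x * (f x ^ 2 * Real.log (f x ^ 2) - f x ^ 2 * Real.log (c ^ 2 + J')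
        - f x ^ 2 + (c ^ 2 + J')) ≤
        b1 * ((4 * L + 15) * ((f x - f 0) ^ 2 * Real.exp (-x)) + J' * Real.exp (-x)) := by
      intro x hx
      have hH := hardy hf hL.le hx
      have hint : 0 ≤ ∫ s in (0)..x, (f s - f 0) ^ 2 * Real.exp (-s) :=
        intervalIntegral.integral_nonneg hx.1 fun s _ => by positivity
      have hux : (f x - f 0) ^ 2 * Real.exp (-x) ≤ 2 * J' := by linarith
      have hu : (f x - c) ^ 2 ≤ J' * Real.exp (L + 1) := by
        have e1 : (f x - c) ^ 2 = (f x - c) ^ 2 * Real.exp (-x) * Real.exp x := by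
          rw [mul_assoc, ← Real.exp_add]; simp
        have e2 : Real.exp x ≤ Real.exp L := Real.exp_le_exp.mpr hx.2
        have e3 : (2 : ℝ) ≤ Real.exp 1 := by
          have := Real.add_one_le_exp (1 : ℝ); linarith
        rw [e1, Real.exp_add]
        calc (f x - c) ^ 2 * Real.exp (-x) * Real.exp x ≤ 2 * J' * Real.exp L := by
              apply mul_le_mul hux e2 (Real.exp_pos _).le (by positivity)
          _ ≤ J' * (Real.exp L * Real.exp 1) := by
              have : 0 < J' * Real.exp L := by positivity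
              nlinarith
      have hD := D_bound (c := c) (u := f x - c) (R := L + 1) hJ'0 (by linarith) hu
      have e4 : c + (f x - c) = f x := by ring
      rw [e4] at hD
      have hD0 : 0 ≤ f x ^ 2 * Real.log (f x ^ 2) - f x ^ 2 * Real.log (c ^ 2 + J')
        - f x ^ 2 + (c ^ 2 + J') := by
        have := mul_log_ge (sq_nonneg (f x)) hτ
        linarith
      calc p x * (f x ^ 2 * Real.log (f x ^ 2) - f x ^ 2 * Real.log (c ^ 2 + J')
            - f x ^ 2 + (c ^ 2 + J'))
          ≤ (b1 * Real.exp (-x)) * (f x ^ 2 * Real.log (f x ^ 2) - f x ^ 2 *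
            Real.log (c ^ 2 + J') - f x ^ 2 + (c ^ 2 + J')) :=
            mul_le_mul_of_nonneg_right (hup x hx) hD0
        _ ≤ (b1 * Real.exp (-x)) * ((4 * (L + 1) + 11) * (f x - c) ^ 2 + J') :=
            mul_le_mul_of_nonneg_left hD (by positivity)
        _ = b1 * ((4 * L + 15) * ((f x - f 0) ^ 2 * Real.exp (-x)) + J' * Real.exp (-x)) := by
            rw [hc]; ring
    calc ∫ x in (0)..L, p x * (f x ^ 2 * Real.log (f x ^ 2) - f x ^ 2 * Real.log (c ^ 2 + J')
        - f x ^ 2 + (c ^ 2 + J'))
        ≤ ∫ x in (0)..L, b1 * ((4 * L + 15) * ((f x - f 0) ^ 2 * Real.exp (-x)) +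
            J' * Real.exp (-x)) := by
          apply intervalIntegral.integral_mono_on hL.le
          · apply Continuous.intervalIntegrable
            exact hp.mul (((hlogc.sub ((hfc.pow 2).mul continuous_const)).sub (hfc.pow 2)).add
              continuous_const)
          · apply Continuous.intervalIntegrable; fun_prop
          · exact hpt
      _ = b1 * ((4 * L + 15) * (∫ x in (0)..L, (f x - f 0) ^ 2 * Real.exp (-x)) +
            J' * (∫ x in (0)..L, Real.exp (-x))) := by
          rw [intervalIntegral.integral_const_mul, intervalIntegral.integral_add,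
            intervalIntegral.integral_const_mul, intervalIntegral.integral_const_mul]
          · apply Continuous.intervalIntegrable; fun_prop
          · apply Continuous.intervalIntegrable; fun_prop
      _ ≤ b1 * ((4 * L + 15) * (4 * J') + J' * 1) := by
          have hS : ∫ x in (0)..L, (f x - f 0) ^ 2 * Real.exp (-x) ≤ 4 * J' := by
            have := hardy hf hL.le (x := L) ⟨hL.le, le_rfl⟩
            have h3 : 0 ≤ (f L - f 0) ^ 2 * Real.exp (-L) := by positivity
            linarith
          have hE : ∫ x in (0)..L, Real.exp (-x) ≤ 1 := by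
            rw [intervalIntegral.integral_comp_neg (fun x => Real.exp x), integral_exp]
            simp only [neg_zero, Real.exp_zero]
            linarith [Real.exp_pos (-L)]
          gcongr
      _ = b1 * (16 * L + 61) * J' := by ring
  have key2 : ent (rho L p) (fun x => f x ^ 2) ≤ (b1 / Z) * (16 * L + 61) * J := by
    have hK : 0 < (b1 / Z) * (16 * L + 61) := by positivity
    rw [← div_le_iff₀' hK]
    apply le_of_forall_gt_imp_ge_of_dense
    intro J' hJ'
    rw [div_le_iff₀' hK]
    exact key J' hJ'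
  refine key2.trans ?_
  have e5 : (b1 / b0) * (16 * L + 61) * ∫ x, (deriv f x) ^ 2 ∂(rho L p) =
    (b1 / Z) * (16 * L + 61) * ((Z * ∫ x, (deriv f x) ^ 2 ∂(rho L p)) / b0) := by
    field_simp
  rw [e5]
  apply mul_le_mul_of_nonneg_left _ (by positivity)
  rw [le_div_iff₀ hb0]
  linarith

end rho

end Pool.Agent.helper96
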