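import Mathlib

open MeasureTheory Set
open scoped ENNReal Pointwise NNReal

namespace Pool.Agent.helper96

/-- One-dimensional Brunn-Minkowski inequality for compact sets. -/
theorem volume_add_ge_compact {A B : Set ℝ} (hA : IsCompact A) (hB : IsCompact B)
    (hA' : A.Nonempty) (hB' : B.Nonempty) :
    volume A + volume B ≤ volume (A + B) := by
  obtain ⟨a, haA, ha⟩ := hA.exists_isGreatest hA'
  obtain ⟨b, hbB, hb⟩ := hB.exists_isLeast hB'
  have h1 : (fun x => x + b) '' A ∪ (fun x => a + x) '' B ⊆ A + B := by
    rintro x (⟨y, hy, rfl⟩ | ⟨y, hy, rfl⟩)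
    · exact Set.add_mem_add hy hbB
    · exact Set.add_mem_add haA hy
  have h2 : volume ((fun x => x + b) '' A) = volume A := by
    rw [Set.image_add_right, measure_preimage_add_right]
  have h3 : volume ((fun x => a + x) '' B) = volume B := by
    rw [Set.image_add_left, measure_preimage_add]
  have hdisj : AEDisjoint volume ((fun x => x + b) '' A) ((fun x => a + x) '' B) := by
    have : ((fun x => x + b) '' A) ∩ ((fun x => a + x) '' B) ⊆ {a + b} := by
      rintro x ⟨⟨y, hy, rfl⟩, ⟨z, hz, hzy⟩⟩
      have h4 : y ≤ a := ha hy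
      have h5 : b ≤ z := hb hz
      simp only at hzy
      simp only [mem_singleton_iff]
      linarith
    exact measure_mono_null this (by simp)
  have hBm : MeasurableSet ((fun x => a + x) '' B) :=
    (hB.image (continuous_const.add continuous_id)).measurableSet
  calc volume A + volume B
      = volume ((fun x => x + b) '' A) + volume ((fun x => a + x) '' B) := by rw [h2, h3]
    _ = volume ((fun x => x + b) '' A ∪ (fun x => a + x) '' B) :=
        (measure_union₀ hBm.nullMeasurableSet hdisj).symm
    _ ≤ volume (A + B) := measure_mono h1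

/-- One-dimensional Brunn-Minkowski inequality for nonempty measurable sets. -/
theorem volume_add_ge {A B : Set ℝ} (hA : MeasurableSet A) (hB : MeasurableSet B)
    (hA' : A.Nonempty) (hB' : B.Nonempty) :
    volume A + volume B ≤ volume (A + B) := by
  obtain ⟨a, ha⟩ := hA'
  obtain ⟨b, hb⟩ := hB'
  have key : ∀ K ⊆ A, IsCompact K → ∀ K' ⊆ B, IsCompact K' →
      volume K + volume K' ≤ volume (A + B) := by
    intro K hK hKc K' hK' hKc'
    calc volume K + volume K' ≤ volume (insert a K) + volume (insert b K') :=
          add_le_add (measure_mono (subset_insert _ _)) (measure_mono (subset_insert _ _))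
      _ ≤ volume (insert a K + insert b K') :=
          volume_add_ge_compact (hKc.insert a) (hKc'.insert b) (insert_nonempty _ _)
            (insert_nonempty _ _)
      _ ≤ volume (A + B) :=
          measure_mono (Set.add_subset_add (insert_subset ha hK) (insert_subset hb hK'))
  have key2 : ∀ K' ⊆ B, IsCompact K' → volume A + volume K' ≤ volume (A + B) := by
    intro K' hK' hKc'
    have h0 : volume K' ≤ volume (A + B) := by
      simpa using key ∅ (empty_subset _) isCompact_empty K' hK' hKc'
    have h1 : volume A ≤ volume (A + B) - volume K' := by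
      rw [hA.measure_eq_iSup_isCompact]
      refine iSup_le fun K => iSup_le fun hK => iSup_le fun hKc => ?_
      exact ENNReal.le_sub_of_add_le_right hKc'.measure_lt_top.ne (key K hK hKc K' hK' hKc')
    calc volume A + volume K' ≤ (volume (A + B) - volume K') + volume K' := by gcongr
      _ = volume (A + B) := tsub_add_cancel_of_le h0
  by_cases hAt : volume A = ∞
  · have := key2 ∅ (empty_subset _) isCompact_empty
    simp only [measure_empty, add_zero, hAt, top_le_iff] at this
    rw [this]; exact le_top
  · have h0 : volume A ≤ volume (A + B) := by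
      simpa using key2 ∅ (empty_subset _) isCompact_empty
    have h1 : volume B ≤ volume (A + B) - volume A := by
      rw [hB.measure_eq_iSup_isCompact]
      refine iSup_le fun K => iSup_le fun hK => iSup_le fun hKc => ?_
      have := key2 K hK hKc
      rw [add_comm] at this
      exact ENNReal.le_sub_of_add_le_right hAt this
    calc volume A + volume B ≤ volume A + (volume (A + B) - volume A) := by gcongr
      _ = volume (A + B) := add_tsub_cancel_of_le h0

/-- Normalised one-dimensional Prekopa-Leindler inequality. -/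
theorem pl_real_normalised {t : ℝ} (ht0 : 0 < t) (ht1 : t < 1) {f g h : ℝ → ℝ}
    (hf : Measurable f) (hg : Measurable g) (hh : Measurable h)
    (hf0 : ∀ x, 0 ≤ f x) (hg0 : ∀ x, 0 ≤ g x) (hh0 : ∀ x, 0 ≤ h x)
    (hf1 : ∀ x, f x ≤ 1) (hg1 : ∀ x, g x ≤ 1)
    (hfs : ∀ s < 1, ∃ x, s < f x) (hgs : ∀ s < 1, ∃ x, s < g x)
    (H : ∀ x y, f x ^ t * g y ^ (1 - t) ≤ h (t * x + (1 - t) * y)) :
    ENNReal.ofReal t * (∫⁻ x, ENNReal.ofReal (f x)) +
      ENNReal.ofReal (1 - t) * (∫⁻ x, ENNReal.ofReal (g x)) ≤ ∫⁻ x, ENNReal.ofReal (h x) := by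
  have ht1' : 0 < 1 - t := by linarith
  have lf := lintegral_eq_lintegral_meas_lt volume (Filter.Eventually.of_forall hf0) hf.aemeasurable
  have lg := lintegral_eq_lintegral_meas_lt volume (Filter.Eventually.of_forall hg0) hg.aemeasurable
  have lh := lintegral_eq_lintegral_meas_lt volume (Filter.Eventually.of_forall hh0) hh.aemeasurable
  rw [lf, lg, lh]
  have mf : Measurable fun s : ℝ => volume {a : ℝ | s < f a} := by
    apply Antitone.measurable
    intro s s' hss
    exact measure_mono fun a ha => lt_of_le_of_lt hss ha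
  have mg : Measurable fun s : ℝ => volume {a : ℝ | s < g a} := by
    apply Antitone.measurable
    intro s s' hss
    exact measure_mono fun a ha => lt_of_le_of_lt hss ha
  rw [← lintegral_const_mul _ mf, ← lintegral_const_mul _ mg, ← lintegral_add_left (mf.const_mul _)]
  apply setLIntegral_mono' measurableSet_Ioi
  intro s hs
  have hs0 : 0 < s := hs
  by_cases hs1 : s < 1
  · have hne1 : {a : ℝ | s < f a}.Nonempty := hfs s hs1
    have hne2 : {a : ℝ | s < g a}.Nonempty := hgs s hs1
    have hm1 : MeasurableSet {a : ℝ | s < f a} := measurableSet_lt measurable_const hf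
    have hm2 : MeasurableSet {a : ℝ | s < g a} := measurableSet_lt measurable_const hg
    have hsub : t • {a : ℝ | s < f a} + (1 - t) • {a : ℝ | s < g a} ⊆ {a : ℝ | s < h a} := by
      rintro z ⟨_, ⟨x, hx, rfl⟩, _, ⟨y, hy, rfl⟩, rfl⟩
      simp only [mem_setOf_eq, smul_eq_mul] at *
      refine lt_of_lt_of_le ?_ (H x y)
      calc s = s ^ t * s ^ (1 - t) := by rw [← Real.rpow_add hs0]; simp
        _ < f x ^ t * g y ^ (1 - t) := by
          apply mul_lt_mul'' (Real.rpow_lt_rpow hs0.le hx ht0) (Real.rpow_lt_rpow hs0.le hy ht1')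
            (by positivity) (by positivity)
    calc ENNReal.ofReal t * volume {a : ℝ | s < f a} +
          ENNReal.ofReal (1 - t) * volume {a : ℝ | s < g a}
        = volume (t • {a : ℝ | s < f a}) + volume ((1 - t) • {a : ℝ | s < g a}) := by
          rw [Measure.addHaar_smul, Measure.addHaar_smul]
          simp [abs_of_pos ht0, abs_of_pos ht1']
      _ ≤ volume (t • {a : ℝ | s < f a} + (1 - t) • {a : ℝ | s < g a}) :=
          volume_add_ge (hm1.const_smul₀ t) (hm2.const_smul₀ (1 - t)) hne1.smul_set hne2.smul_set
      _ ≤ volume {a : ℝ | s < h a} := measure_mono hsub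
  · have e1 : {a : ℝ | s < f a} = ∅ := by
      ext a; simp only [mem_setOf_eq, mem_empty_iff_false, iff_false, not_lt]
      have := hf1 a; linarith
    have e2 : {a : ℝ | s < g a} = ∅ := by
      ext a; simp only [mem_setOf_eq, mem_empty_iff_false, iff_false, not_lt]
      have := hg1 a; linarith
    simp [e1, e2]

end Pool.Agent.helper96
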