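import Mathlib
import Pool.Agent.helper96.PL

open MeasureTheory Set
open scoped ENNReal Pointwise NNReal

namespace Pool.Agent.helper96

theorem lt_toReal_of_ofReal_lt {r : ℝ} {b : ℝ≥0∞} (hb : b ≠ ∞) (h : ENNReal.ofReal r < b) :
    r < b.toReal := by
  by_contra hc
  push Not at hc
  have := ENNReal.ofReal_le_ofReal hc
  rw [ENNReal.ofReal_toReal hb] at this
  exact absurd h (not_lt.mpr this)

theorem ennreal_amgm {t : ℝ} (ht0 : 0 < t) (ht1 : t < 1) (X Y : ℝ≥0∞) :
    X ^ t * Y ^ (1 - t) ≤ ENNReal.ofReal t * X + ENNReal.ofReal (1 - t) * Y := by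
  have ht1' : 0 < 1 - t := by linarith
  have hpq : (t⁻¹).HolderConjugate ((1 - t)⁻¹) := by
    rw [Real.holderConjugate_iff]
    refine ⟨(one_lt_inv₀ ht0).mpr ht1, by simp⟩
  have := ENNReal.young_inequality (X ^ t) (Y ^ (1 - t)) hpq
  rw [← ENNReal.rpow_mul, ← ENNReal.rpow_mul, mul_inv_cancel₀ ht0.ne', mul_inv_cancel₀ ht1'.ne',
    ENNReal.rpow_one, ENNReal.rpow_one, ENNReal.ofReal_inv_of_pos ht0,
    ENNReal.ofReal_inv_of_pos ht1', ENNReal.div_eq_inv_mul, ENNReal.div_eq_inv_mul, inv_inv,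
    inv_inv] at this
  exact this

theorem pl_real_bounded {t : ℝ} (ht0 : 0 < t) (ht1 : t < 1) {f g h : ℝ → ℝ≥0∞}
    (hf : Measurable f) (hg : Measurable g) (hh : Measurable h) {M : ℝ≥0∞} (hM : M ≠ ∞)
    (hfM : ∀ x, f x ≤ M) (hgM : ∀ x, g x ≤ M)
    (H : ∀ x y, f x ^ t * g y ^ (1 - t) ≤ h (t * x + (1 - t) * y)) :
    (∫⁻ x, f x) ^ t * (∫⁻ x, g x) ^ (1 - t) ≤ ∫⁻ x, h x := by
  have ht1' : 0 < 1 - t := by linarith
  set A := ⨆ x, f x with hA
  set B := ⨆ x, g x with hB
  have hAM : A ≤ M := iSup_le hfM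
  have hBM : B ≤ M := iSup_le hgM
  have hAt : A ≠ ∞ := ne_top_of_le_ne_top hM hAM
  have hBt : B ≠ ∞ := ne_top_of_le_ne_top hM hBM
  by_cases hA0 : A = 0
  · have : ∀ x, f x = 0 := by
      intro x
      have : f x ≤ A := le_iSup f x
      simpa [hA0] using this
    simp [this, ht0]
  by_cases hB0 : B = 0
  · have : ∀ x, g x = 0 := by
      intro x
      have : g x ≤ B := le_iSup g x
      simpa [hB0] using this
    simp [this, ht1']
  have hfA : ∀ x, f x ≤ A := fun x => le_iSup f x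
  have hgB : ∀ x, g x ≤ B := fun x => le_iSup g x
  set a := A.toReal with ha
  set b := B.toReal with hb
  have ha0 : 0 < a := ENNReal.toReal_pos hA0 hAt
  have hb0 : 0 < b := ENNReal.toReal_pos hB0 hBt
  set c := a ^ t * b ^ (1 - t) with hc
  have hc0 : 0 < c := by positivity
  have hcE : ENNReal.ofReal c = A ^ t * B ^ (1 - t) := by
    rw [hc, ENNReal.ofReal_mul (by positivity), ← ENNReal.ofReal_rpow_of_pos ha0,
      ← ENNReal.ofReal_rpow_of_pos hb0, ha, hb, ENNReal.ofReal_toReal hAt,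
      ENNReal.ofReal_toReal hBt]
  have hft : ∀ x, f x ≠ ∞ := fun x => ne_top_of_le_ne_top hAt (hfA x)
  have hgt : ∀ x, g x ≠ ∞ := fun x => ne_top_of_le_ne_top hBt (hgB x)
  have hmt : ∀ x, min (h x) (ENNReal.ofReal c) ≠ ∞ := fun x =>
    ne_top_of_le_ne_top ENNReal.ofReal_ne_top (min_le_right _ _)
  have key := pl_real_normalised ht0 ht1 (f := fun x => (f x).toReal / a)
    (g := fun x => (g x).toReal / b) (h := fun x => (min (h x) (ENNReal.ofReal c)).toReal / c)
    (hf.ennreal_toReal.div_const a) (hg.ennreal_toReal.div_const b)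
    ((hh.min measurable_const).ennreal_toReal.div_const c)
    (fun x => by positivity) (fun x => by positivity) (fun x => by positivity)
    (fun x => by
      rw [div_le_one ha0]
      exact ENNReal.toReal_mono hAt (hfA x))
    (fun x => by
      rw [div_le_one hb0]
      exact ENNReal.toReal_mono hBt (hgB x))
    (fun s hs => by
      have h1 : ENNReal.ofReal (s * a) < A := by
        rw [← ENNReal.ofReal_toReal hAt, ← ha]
        apply (ENNReal.ofReal_lt_ofReal_iff ha0).mpr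
        nlinarith
      obtain ⟨x, hx⟩ := lt_iSup_iff.mp h1
      refine ⟨x, ?_⟩
      rw [lt_div_iff₀ ha0]
      exact lt_toReal_of_ofReal_lt (hft x) hx)
    (fun s hs => by
      have h1 : ENNReal.ofReal (s * b) < B := by
        rw [← ENNReal.ofReal_toReal hBt, ← hb]
        apply (ENNReal.ofReal_lt_ofReal_iff hb0).mpr
        nlinarith
      obtain ⟨x, hx⟩ := lt_iSup_iff.mp h1
      refine ⟨x, ?_⟩
      rw [lt_div_iff₀ hb0]
      exact lt_toReal_of_ofReal_lt (hgt x) hx)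
    (fun x y => by
      have h1 : f x ^ t * g y ^ (1 - t) ≤ min (h (t * x + (1 - t) * y)) (ENNReal.ofReal c) := by
        refine le_min (H x y) ?_
        rw [hcE]
        exact mul_le_mul' (ENNReal.rpow_le_rpow (hfA x) ht0.le)
          (ENNReal.rpow_le_rpow (hgB y) ht1'.le)
      have h2 := ENNReal.toReal_mono (hmt _) h1
      rw [ENNReal.toReal_mul, ← ENNReal.toReal_rpow, ← ENNReal.toReal_rpow] at h2
      rw [Real.div_rpow ENNReal.toReal_nonneg ha0.le, Real.div_rpow ENNReal.toReal_nonneg hb0.le,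
        div_mul_div_comm]
      exact div_le_div_of_nonneg_right h2 hc0.le)
  have e1 : ∀ x, ENNReal.ofReal ((f x).toReal / a) = A⁻¹ * f x := by
    intro x
    rw [ENNReal.ofReal_div_of_pos ha0, ENNReal.ofReal_toReal (hft x), ha,
      ENNReal.ofReal_toReal hAt, ENNReal.div_eq_inv_mul]
  have e2 : ∀ x, ENNReal.ofReal ((g x).toReal / b) = B⁻¹ * g x := by
    intro x
    rw [ENNReal.ofReal_div_of_pos hb0, ENNReal.ofReal_toReal (hgt x), hb,
      ENNReal.ofReal_toReal hBt, ENNReal.div_eq_inv_mul]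
  have e3 : ∀ x, ENNReal.ofReal ((min (h x) (ENNReal.ofReal c)).toReal / c) ≤
      (ENNReal.ofReal c)⁻¹ * h x := by
    intro x
    rw [ENNReal.ofReal_div_of_pos hc0, ENNReal.ofReal_toReal (hmt x), ENNReal.div_eq_inv_mul]
    gcongr
    exact min_le_left _ _
  simp only [e1, e2] at key
  rw [lintegral_const_mul _ hf, lintegral_const_mul _ hg] at key
  have key2 : (A⁻¹ * ∫⁻ x, f x) ^ t * (B⁻¹ * ∫⁻ x, g x) ^ (1 - t) ≤
      (ENNReal.ofReal c)⁻¹ * ∫⁻ x, h x := by
    refine (ennreal_amgm ht0 ht1 _ _).trans (key.trans ?_)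
    rw [← lintegral_const_mul _ hh]
    exact lintegral_mono e3
  have hcE0 : ENNReal.ofReal c ≠ 0 := by simpa using hc0
  have e4 : (A⁻¹ * ∫⁻ x, f x) ^ t * (B⁻¹ * ∫⁻ x, g x) ^ (1 - t) =
      (ENNReal.ofReal c)⁻¹ * ((∫⁻ x, f x) ^ t * (∫⁻ x, g x) ^ (1 - t)) := by
    rw [ENNReal.mul_rpow_of_nonneg _ _ ht0.le, ENNReal.mul_rpow_of_nonneg _ _ ht1'.le,
      ENNReal.inv_rpow, ENNReal.inv_rpow, hcE, ENNReal.mul_inv]
    · ring
    · left
      simp [ENNReal.rpow_eq_zero_iff, hA0, hAt]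
    · left
      simp [ENNReal.rpow_eq_top_iff, hA0, hAt]
  rw [e4] at key2
  calc (∫⁻ x, f x) ^ t * (∫⁻ x, g x) ^ (1 - t)
      = ENNReal.ofReal c * ((ENNReal.ofReal c)⁻¹ *
          ((∫⁻ x, f x) ^ t * (∫⁻ x, g x) ^ (1 - t))) := by
        rw [← mul_assoc, ENNReal.mul_inv_cancel hcE0 ENNReal.ofReal_ne_top, one_mul]
    _ ≤ ENNReal.ofReal c * ((ENNReal.ofReal c)⁻¹ * ∫⁻ x, h x) := by gcongr
    _ = ∫⁻ x, h x := by
        rw [← mul_assoc, ENNReal.mul_inv_cancel hcE0 ENNReal.ofReal_ne_top, one_mul]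

theorem pl_real {t : ℝ} (ht0 : 0 < t) (ht1 : t < 1) {f g h : ℝ → ℝ≥0∞}
    (hf : Measurable f) (hg : Measurable g) (hh : Measurable h)
    (H : ∀ x y, f x ^ t * g y ^ (1 - t) ≤ h (t * x + (1 - t) * y)) :
    (∫⁻ x, f x) ^ t * (∫⁻ x, g x) ^ (1 - t) ≤ ∫⁻ x, h x := by
  have ht1' : 0 < 1 - t := by linarith
  have key : ∀ N : ℕ, (∫⁻ x, min (f x) N) ^ t * (∫⁻ x, min (g x) N) ^ (1 - t) ≤ ∫⁻ x, h x := by
    intro N
    refine pl_real_bounded ht0 ht1 (hf.min measurable_const) (hg.min measurable_const) hh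
      (ENNReal.natCast_ne_top N) (fun x => min_le_right _ _) (fun x => min_le_right _ _) ?_
    intro x y
    refine le_trans ?_ (H x y)
    exact mul_le_mul' (ENNReal.rpow_le_rpow (min_le_left _ _) ht0.le)
          (ENNReal.rpow_le_rpow (min_le_left _ _) ht1'.le)
  have lim : ∀ f : ℝ → ℝ≥0∞, Measurable f → ∫⁻ x, f x = ⨆ N : ℕ, ∫⁻ x, min (f x) N := by
    intro f hf
    rw [← lintegral_iSup (fun N => hf.min measurable_const)]
    · congr 1
      ext x
      rw [← inf_iSup_eq, ENNReal.iSup_natCast]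
      simp
    · intro N N' hNN x
      exact min_le_min_left _ (by exact_mod_cast hNN)
  have hmono : ∀ f : ℝ → ℝ≥0∞, Monotone fun N : ℕ => ∫⁻ x, min (f x) N := by
    intro f N N' hNN
    exact lintegral_mono fun x => min_le_min_left _ (by exact_mod_cast hNN)
  have hs : ∀ (s : ℝ), 0 < s → ∀ u : ℕ → ℝ≥0∞, (⨆ N, u N) ^ s = ⨆ N, (u N) ^ s := by
    intro s hs u
    exact (ENNReal.orderIsoRpow s hs).map_iSup u
  rw [lim f hf, lim g hg, hs t ht0, hs _ ht1', ENNReal.iSup_mul]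
  refine iSup_le fun i => ?_
  rw [ENNReal.mul_iSup]
  refine iSup_le fun j => ?_
  refine le_trans (mul_le_mul' ?_ ?_) (key (max i j))
  · exact ENNReal.rpow_le_rpow (hmono f (le_max_left i j)) ht0.le
  · exact ENNReal.rpow_le_rpow (hmono g (le_max_right i j)) ht1'.le

/-- **Prekopa-Leindler inequality** on `Fin d → ℝ`. -/
theorem prekopa_leindler {t : ℝ} (ht0 : 0 < t) (ht1 : t < 1) : ∀ (d : ℕ)
    {f g h : (Fin d → ℝ) → ℝ≥0∞} (_ : Measurable f) (_ : Measurable g) (_ : Measurable h)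
    (_ : ∀ x y, f x ^ t * g y ^ (1 - t) ≤ h (t • x + (1 - t) • y)),
    (∫⁻ x, f x) ^ t * (∫⁻ x, g x) ^ (1 - t) ≤ ∫⁻ x, h x := by
  intro d
  induction d with
  | zero =>
    intro f g h hf hg hh H
    simp only [lintegral_unique]
    have e : (volume : Measure (Fin 0 → ℝ)) univ = 1 := by
      simp [volume_pi]
    simp only [e, mul_one]
    refine le_trans (H _ _) (le_of_eq ?_)
    congr 1
    exact Subsingleton.elim _ _
  | succ d ih =>
    intro f g h hf hg hh H
    have e := (volume_preserving_piFinSuccAbove (fun _ : Fin (d + 1) => ℝ) 0).symm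
    have he : ∀ F : (Fin (d + 1) → ℝ) → ℝ≥0∞, Measurable F →
        ∫⁻ x, F x = ∫⁻ x : ℝ, ∫⁻ y : Fin d → ℝ, F (Fin.cons x y) := by
      intro F hF
      rw [← e.lintegral_comp hF, Measure.volume_eq_prod, lintegral_prod]
      · simp [MeasurableEquiv.piFinSuccAbove_symm_apply, Fin.insertNthEquiv_zero, Fin.consEquiv]
      · exact (hF.comp (MeasurableEquiv.measurable _)).aemeasurable
    rw [he f hf, he g hg, he h hh]
    have hcons : Measurable fun p : ℝ × (Fin d → ℝ) => (Fin.cons p.1 p.2 : Fin (d + 1) → ℝ) := by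
      refine measurable_pi_lambda _ fun i => ?_
      refine Fin.cases ?_ (fun j => ?_) i
      · simpa using measurable_fst
      · simp only [Fin.cons_succ]
        exact (measurable_pi_apply j).comp measurable_snd
    have hm : ∀ F : (Fin (d + 1) → ℝ) → ℝ≥0∞, Measurable F →
        Measurable fun x : ℝ => ∫⁻ y : Fin d → ℝ, F (Fin.cons x y) := by
      intro F hF
      exact (hF.comp hcons).lintegral_prod_right'
    refine pl_real ht0 ht1 (hm f hf) (hm g hg) (hm h hh) ?_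
    intro x y
    have hm2 : ∀ F : (Fin (d + 1) → ℝ) → ℝ≥0∞, Measurable F → ∀ x : ℝ,
        Measurable fun y : Fin d → ℝ => F (Fin.cons x y) := by
      intro F hF x
      exact hF.comp (hcons.comp (measurable_const.prodMk measurable_id))
    refine ih (hm2 f hf x) (hm2 g hg y) (hm2 h hh _) ?_
    intro x' y'
    refine (H (Fin.cons x x') (Fin.cons y y')).trans (le_of_eq ?_)
    congr 1
    ext i
    refine Fin.cases ?_ (fun j => ?_) i
    · simp
    · simp

end Pool.Agent.helper96
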