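import Mathlib
import Pool.Agent.helper96.Ent

open MeasureTheory Set
open scoped ENNReal NNReal

namespace Pool.Agent.helper96

theorem ent_comp {X Y : Type*} [MeasurableSpace X] [MeasurableSpace Y] {μ : Measure X}
    {ν : Measure Y} {φ : X → Y} (h : MeasurePreserving φ μ ν) {g : Y → ℝ} (hg : Measurable g) :
    ent μ (fun x => g (φ x)) = ent ν g := by
  have hm : Measurable fun y => g y * Real.log (g y) := hg.mul (Real.measurable_log.comp hg)
  unfold ent
  rw [← h.map_eq, integral_map h.measurable.aemeasurable hg.aestronglyMeasurable,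
    integral_map h.measurable.aemeasurable hm.aestronglyMeasurable]

/-- Tensorisation, with energies. -/
theorem ent_prod_le_of_slices {X Y : Type*} [MeasurableSpace X] [MeasurableSpace Y] {μ : Measure X}
    {ν : Measure Y} [IsProbabilityMeasure μ] [IsProbabilityMeasure ν] {S : Set X} {T : Set Y}
    (hS : MeasurableSet S) (hT : MeasurableSet T) (hμS : ∀ᵐ x ∂μ, x ∈ S) (hνT : ∀ᵐ y ∂ν, y ∈ T)
    {g : X × Y → ℝ} (hg : Measurable g) {M : ℝ} (h0 : ∀ p, 0 ≤ g p)
    (hM : ∀ x ∈ S, ∀ y ∈ T, g (x, y) ≤ M) {U V : X × Y → ℝ} (hU : Integrable U (μ.prod ν))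
    (hV : Integrable V (μ.prod ν)) (hUe : ∀ y ∈ T, ent μ (fun x => g (x, y)) ≤ ∫ x, U (x, y) ∂μ)
    (hVe : ∀ x ∈ S, ent ν (fun y => g (x, y)) ≤ ∫ y, V (x, y) ∂ν) :
    ent (μ.prod ν) g ≤ ∫ p, (U p + V p) ∂(μ.prod ν) := by
  classical
  set g' : X × Y → ℝ := (S ×ˢ T).indicator g with hg'
  have hg'm : Measurable g' := hg.indicator (hS.prod hT)
  have hg'0 : ∀ p, 0 ≤ g' p := fun p => indicator_nonneg (fun p _ => h0 p) p
  have hg'M : ∀ p, g' p ≤ max M 0 := by
    intro p
    rw [hg', indicator_apply]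
    split_ifs with hp
    · exact (hM p.1 hp.1 p.2 hp.2).trans (le_max_left _ _)
    · exact le_max_right _ _
  have hae : g =ᵐ[μ.prod ν] g' := by
    have h1 : ∀ᵐ p ∂(μ.prod ν), p.1 ∈ S := Measure.quasiMeasurePreserving_fst.ae hμS
    have h2 : ∀ᵐ p ∂(μ.prod ν), p.2 ∈ T := Measure.quasiMeasurePreserving_snd.ae hνT
    filter_upwards [h1, h2] with p hp1 hp2
    rw [hg', indicator_of_mem (show p ∈ S ×ˢ T from ⟨hp1, hp2⟩)]
  rw [ent_congr_ae hae]
  refine (ent_prod_le hg'm hg'0 hg'M).trans ?_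
  rw [integral_add hU hV, integral_prod_symm _ hU, integral_prod _ hV]
  -- integrability of slice entropies
  have hi : Integrable (fun p => g' p * Real.log (g' p)) (μ.prod ν) :=
    integrable_mul_log hg'm hg'0 hg'M
  have hmm : Measurable fun y => ∫ x, g' (x, y) ∂μ :=
    (hg'm.stronglyMeasurable.integral_prod_left').measurable
  have hGm : Measurable fun x => ∫ y, g' (x, y) ∂ν :=
    (hg'm.stronglyMeasurable.integral_prod_right').measurable
  have hgx : ∀ y, Integrable (fun x => g' (x, y)) μ := fun y =>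
    integrable_of_bdd (hg'm.comp (measurable_id.prodMk measurable_const)).aestronglyMeasurable
      (Filter.Eventually.of_forall fun x => by rw [abs_of_nonneg (hg'0 _)]; exact hg'M _)
  have hgy : ∀ x, Integrable (fun y => g' (x, y)) ν := fun x =>
    integrable_of_bdd (hg'm.comp (measurable_const.prodMk measurable_id)).aestronglyMeasurable
      (Filter.Eventually.of_forall fun y => by rw [abs_of_nonneg (hg'0 _)]; exact hg'M _)
  have i1 : Integrable (fun y => ent μ (fun x => g' (x, y))) ν := by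
    unfold ent
    apply Integrable.sub hi.integral_prod_right
    apply integrable_mul_log hmm (M := max M 0) (fun y => integral_nonneg fun x => hg'0 _)
    intro y
    calc ∫ x, g' (x, y) ∂μ ≤ ∫ _x, (max M 0) ∂μ :=
          integral_mono (hgx y) (integrable_const _) fun x => hg'M _
      _ = max M 0 := by simp
  have i2 : Integrable (fun x => ent ν (fun y => g' (x, y))) μ := by
    unfold ent
    apply Integrable.sub hi.integral_prod_left
    apply integrable_mul_log hGm (M := max M 0) (fun y => integral_nonneg fun x => hg'0 _)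
    intro x
    calc ∫ y, g' (x, y) ∂ν ≤ ∫ _y, (max M 0) ∂ν :=
          integral_mono (hgy x) (integrable_const _) fun y => hg'M _
      _ = max M 0 := by simp
  apply add_le_add
  · apply integral_mono_ae i1 hU.integral_prod_right
    filter_upwards [hνT] with y hy
    refine le_trans (le_of_eq ?_) (hUe y hy)
    apply ent_congr_ae
    filter_upwards [hμS] with x hx
    rw [hg', indicator_of_mem (show (x, y) ∈ S ×ˢ T from ⟨hx, hy⟩)]
  · apply integral_mono_ae i2 hV.integral_prod_left
    filter_upwards [hμS] with x hx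
    refine le_trans (le_of_eq ?_) (hVe x hx)
    apply ent_congr_ae
    filter_upwards [hνT] with y hy
    rw [hg', indicator_of_mem (show (x, y) ∈ S ×ˢ T from ⟨hx, hy⟩)]

/-- The i-th coordinate derivative of a function on `Fin n → ℝ`. -/
noncomputable def pd {n : ℕ} (f : (Fin n → ℝ) → ℝ) (i : Fin n) (z : Fin n → ℝ) : ℝ :=
  fderiv ℝ f z (Pi.single i 1)

theorem continuous_pd {n : ℕ} {f : (Fin n → ℝ) → ℝ} (hf : ContDiff ℝ 1 f) (i : Fin n) :
    Continuous (pd f i) :=
  (hf.continuous_fderiv one_ne_zero).clm_apply continuous_const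

theorem hasDerivAt_cons {n : ℕ} (z : Fin n → ℝ) (s : ℝ) :
    HasDerivAt (fun s : ℝ => (Fin.cons s z : Fin (n + 1) → ℝ)) (Pi.single 0 1) s := by
  rw [hasDerivAt_pi]
  intro i
  refine Fin.cases ?_ (fun j => ?_) i
  · simpa using hasDerivAt_id' s
  · simpa using hasDerivAt_const s (z j)

/-- The derivative of `z ↦ Fin.cons s z`. -/
noncomputable def consD (n : ℕ) : (Fin n → ℝ) →L[ℝ] (Fin (n + 1) → ℝ) :=
  ContinuousLinearMap.pi (Fin.cons (0 : (Fin n → ℝ) →L[ℝ] ℝ)
    (fun j => (ContinuousLinearMap.proj j : (Fin n → ℝ) →L[ℝ] ℝ)) :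
      Fin (n + 1) → ((Fin n → ℝ) →L[ℝ] ℝ))

theorem hasFDerivAt_cons {n : ℕ} (z : Fin n → ℝ) (s : ℝ) :
    HasFDerivAt (fun z : Fin n → ℝ => (Fin.cons s z : Fin (n + 1) → ℝ)) (consD n) z := by
  unfold consD
  rw [hasFDerivAt_pi]
  intro i
  refine Fin.cases ?_ (fun j => ?_) i
  · simpa using hasFDerivAt_const s z
  · simpa using hasFDerivAt_apply j z

theorem contDiff_cons_left {n : ℕ} (z : Fin n → ℝ) :
    ContDiff ℝ 1 (fun s : ℝ => (Fin.cons s z : Fin (n + 1) → ℝ)) := by
  rw [contDiff_pi]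
  intro i
  refine Fin.cases ?_ (fun j => ?_) i
  · simpa using contDiff_fun_id
  · simpa using contDiff_const

theorem contDiff_cons_right {n : ℕ} (s : ℝ) :
    ContDiff ℝ 1 (fun z : Fin n → ℝ => (Fin.cons s z : Fin (n + 1) → ℝ)) := by
  rw [contDiff_pi]
  intro i
  refine Fin.cases ?_ (fun j => ?_) i
  · simpa using contDiff_const
  · simpa using contDiff_apply ℝ ℝ j

theorem deriv_comp_cons {n : ℕ} {f : (Fin (n + 1) → ℝ) → ℝ} (hf : ContDiff ℝ 1 f)
    (z : Fin n → ℝ) (s : ℝ) :
    deriv (fun s => f (Fin.cons s z)) s = pd f 0 (Fin.cons s z) := by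
  have h1 : HasFDerivAt f (fderiv ℝ f (Fin.cons s z)) (Fin.cons s z) :=
    (hf.differentiable one_ne_zero).differentiableAt.hasFDerivAt
  exact (h1.comp_hasDerivAt s (hasDerivAt_cons z s)).deriv

theorem pd_comp_cons {n : ℕ} {f : (Fin (n + 1) → ℝ) → ℝ} (hf : ContDiff ℝ 1 f)
    (z : Fin n → ℝ) (s : ℝ) (i : Fin n) :
    pd (fun z => f (Fin.cons s z)) i z = pd f i.succ (Fin.cons s z) := by
  have h1 : HasFDerivAt f (fderiv ℝ f (Fin.cons s z)) (Fin.cons s z) :=
    (hf.differentiable one_ne_zero).differentiableAt.hasFDerivAt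
  unfold pd
  have h2 := h1.comp z (hasFDerivAt_cons z s)
  have h3 : HasFDerivAt (fun z => f (Fin.cons s z)) _ z := h2
  rw [h3.fderiv]
  simp only [ContinuousLinearMap.coe_comp, Function.comp_apply]
  congr 1
  ext j
  refine Fin.cases ?_ (fun k => ?_) j
  · simp [consD]
  · simp [consD, Pi.single_apply]

theorem integrable_of_compact {X : Type*} [TopologicalSpace X] [MeasurableSpace X]
    [OpensMeasurableSpace X] {μ : Measure X} [IsFiniteMeasure μ] {K : Set X} (hK : IsCompact K)
    (hμ : ∀ᵐ x ∂μ, x ∈ K) {F : X → ℝ} (hF : Continuous F) : Integrable F μ := by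
  obtain ⟨M, hM⟩ := hK.exists_bound_of_continuousOn hF.continuousOn
  refine integrable_of_bdd (M := M) hF.measurable.aestronglyMeasurable ?_
  filter_upwards [hμ] with x hx
  exact hM x hx

theorem ae_pi_mem {ν : Measure ℝ} [IsProbabilityMeasure ν] {a b : ℝ} (hν : ∀ᵐ x ∂ν, x ∈ Icc a b)
    (n : ℕ) : ∀ᵐ z ∂(Measure.pi fun _ : Fin n => ν), z ∈ Set.pi univ fun _ : Fin n => Icc a b := by
  have : ∀ i : Fin n, ∀ᵐ z ∂(Measure.pi fun _ : Fin n => ν), z i ∈ Icc a b := by
    intro i
    exact (Measure.quasiMeasurePreserving_eval (fun _ : Fin n => ν) i).ae hν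
  filter_upwards [ae_all_iff.mpr this] with z hz
  exact fun i _ => hz i

/-- Log-Sobolev inequality for product measures on `Fin n → ℝ`. -/
theorem lsi_pi {ν : Measure ℝ} [IsProbabilityMeasure ν] {a b : ℝ} (hν : ∀ᵐ x ∂ν, x ∈ Icc a b)
    {c : ℝ} (h1 : ∀ f : ℝ → ℝ, ContDiff ℝ 1 f →
      ent ν (fun x => f x ^ 2) ≤ c * ∫ x, (deriv f x) ^ 2 ∂ν) :
    ∀ (n : ℕ) (f : (Fin n → ℝ) → ℝ), ContDiff ℝ 1 f →
      ent (Measure.pi fun _ => ν) (fun z => f z ^ 2) ≤
        c * ∫ z, ∑ i, (pd f i z) ^ 2 ∂(Measure.pi fun _ => ν) := by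
  intro n
  induction n with
  | zero =>
    intro f hf
    have e : (fun z : Fin 0 → ℝ => f z ^ 2) = fun _ => f default ^ 2 := by
      ext z
      rw [Subsingleton.elim z default]
    rw [e]
    simp [ent]
  | succ n ih =>
    intro f hf
    have hmp := measurePreserving_piFinSuccAbove (fun _ : Fin (n + 1) => ν) 0
    have hconsc : Continuous fun p : ℝ × (Fin n → ℝ) => (Fin.cons p.1 p.2 : Fin (n + 1) → ℝ) := by
      refine continuous_pi fun i => ?_
      refine Fin.cases ?_ (fun j => ?_) i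
      · simpa using continuous_fst
      · simp only [Fin.cons_succ]
        exact (continuous_apply j).comp continuous_snd
    have hfc := hf.continuous
    set g : ℝ × (Fin n → ℝ) → ℝ := fun p => f (Fin.cons p.1 p.2) ^ 2 with hg
    have hgc : Continuous g := (hfc.comp hconsc).pow 2
    have hint : ∀ H : (Fin (n + 1) → ℝ) → ℝ, 
        ∫ p, H (Fin.cons p.1 p.2) ∂(ν.prod (Measure.pi fun _ : Fin n => ν)) =
        ∫ z, H z ∂(Measure.pi fun _ : Fin (n + 1) => ν) := by
      intro H
      have := hmp.integral_comp' (fun p => H (Fin.cons p.1 p.2))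
      rw [← this]
      congr 1
      ext z
      congr 1
      ext i
      refine Fin.cases ?_ (fun j => ?_) i
      · simp [MeasurableEquiv.piFinSuccAbove]
      · simp [MeasurableEquiv.piFinSuccAbove, Fin.tail]
    have e1 : ent (Measure.pi fun _ : Fin (n + 1) => ν) (fun z => f z ^ 2) =
        ent (ν.prod (Measure.pi fun _ : Fin n => ν)) g := by
      unfold ent
      rw [hint (fun z => f z ^ 2 * Real.log (f z ^ 2)), hint (fun z => f z ^ 2)]
    have hT : MeasurableSet (Set.pi univ fun _ : Fin n => Icc a b) :=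
      MeasurableSet.univ_pi fun _ => measurableSet_Icc
    have hKc : IsCompact ((Icc a b) ×ˢ (Set.pi univ fun _ : Fin n => Icc a b)) :=
      isCompact_Icc.prod (isCompact_univ_pi fun _ => isCompact_Icc)
    have hKae : ∀ᵐ p ∂(ν.prod (Measure.pi fun _ : Fin n => ν)),
        p ∈ (Icc a b) ×ˢ (Set.pi univ fun _ : Fin n => Icc a b) := by
      have h1 : ∀ᵐ p ∂(ν.prod (Measure.pi fun _ : Fin n => ν)), p.1 ∈ Icc a b :=
        Measure.quasiMeasurePreserving_fst.ae hν
      have h2 : ∀ᵐ p ∂(ν.prod (Measure.pi fun _ : Fin n => ν)),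
          p.2 ∈ Set.pi univ fun _ : Fin n => Icc a b :=
        Measure.quasiMeasurePreserving_snd.ae (ae_pi_mem hν n)
      filter_upwards [h1, h2] with p hp1 hp2 using ⟨hp1, hp2⟩
    obtain ⟨M, hM⟩ := hKc.exists_bound_of_continuousOn hgc.continuousOn
    set U : ℝ × (Fin n → ℝ) → ℝ := fun p => c * (pd f 0 (Fin.cons p.1 p.2)) ^ 2 with hU
    set V : ℝ × (Fin n → ℝ) → ℝ := fun p => c * ∑ i : Fin n, (pd f i.succ (Fin.cons p.1 p.2)) ^ 2
      with hV
    have hpdc : ∀ i, Continuous (pd f i) := continuous_pd hf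
    have hUc : Continuous U := continuous_const.mul (((hpdc 0).comp hconsc).pow 2)
    have hVc : Continuous V := continuous_const.mul
      (continuous_finsetSum _ fun i _ => ((hpdc i.succ).comp hconsc).pow 2)
    rw [e1]
    refine (ent_prod_le_of_slices measurableSet_Icc hT hν (ae_pi_mem hν n) hgc.measurable
      (M := M) (fun p => sq_nonneg _) (fun x hx y hy => (le_abs_self _).trans (hM (x, y) ⟨hx, hy⟩))
      (integrable_of_compact hKc hKae hUc) (integrable_of_compact hKc hKae hVc) ?_ ?_).trans ?_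
    · intro z _
      have := h1 (fun s => f (Fin.cons s z)) (hf.comp (contDiff_cons_left z))
      simp only [hg, hU]
      rw [integral_const_mul]
      simpa only [deriv_comp_cons hf] using this
    · intro s _
      have := ih (fun z => f (Fin.cons s z)) (hf.comp (contDiff_cons_right s))
      simp only [hg, hV]
      rw [integral_const_mul]
      simpa only [pd_comp_cons hf] using this
    · have e2 : (fun p : ℝ × (Fin n → ℝ) => U p + V p) =
          fun p => c * ∑ i : Fin (n + 1), (pd f i (Fin.cons p.1 p.2)) ^ 2 := by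
        ext p
        simp only [hU, hV, Fin.sum_univ_succ]
        ring
      rw [e2, hint (fun z => c * ∑ i : Fin (n + 1), (pd f i z) ^ 2), integral_const_mul]

end Pool.Agent.helper96
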