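import Mathlib
import Pool.Agent.helper96.PL2
import Pool.Agent.helper96.LSI2
import Pool.Agent.helper96.Tensor

open MeasureTheory Set
open scoped ENNReal NNReal Pointwise

namespace Pool.Agent.helper96

/-- Borell's definition of a logconcave measure on Euclidean space. -/
def IsLogconcave {n : ℕ} (μ : Measure (EuclideanSpace ℝ (Fin n))) : Prop :=
  ∀ A B : Set (EuclideanSpace ℝ (Fin n)), IsCompact A → IsCompact B → A.Nonempty → B.Nonempty →
    ∀ t : ℝ, 0 ≤ t → t ≤ 1 → μ A ^ t * μ B ^ (1 - t) ≤ μ (t • A + (1 - t) • B)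

theorem lintegral_cons (d : ℕ) {F : (Fin (d + 1) → ℝ) → ℝ≥0∞} (hF : Measurable F) :
    ∫⁻ x, F x = ∫⁻ x : ℝ, ∫⁻ y : Fin d → ℝ, F (Fin.cons x y) := by
  have e := (volume_preserving_piFinSuccAbove (fun _ : Fin (d + 1) => ℝ) 0).symm
  rw [← e.lintegral_comp hF, Measure.volume_eq_prod, lintegral_prod]
  · simp [MeasurableEquiv.piFinSuccAbove_symm_apply, Fin.insertNthEquiv_zero, Fin.consEquiv]
  · exact (hF.comp (MeasurableEquiv.measurable _)).aemeasurable

/-- uniform law on `[0, 2]` -/
noncomputable def nu : Measure ℝ := rho 2 (fun _ => 1)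

instance : IsProbabilityMeasure nu :=
  isProbabilityMeasure_rho (by norm_num) continuous_const (fun _ _ => one_pos)

theorem nu_eq : nu = ENNReal.ofReal (1 / 2) • volume.restrict (Icc (0 : ℝ) 2) := by
  unfold nu rho
  rw [withDensity_const]
  simp

theorem pi_nu (n : ℕ) : (Measure.pi fun _ : Fin n => nu) =
    ENNReal.ofReal (1 / 2) ^ n •
      (volume : Measure (Fin n → ℝ)).restrict (Set.pi univ fun _ => Icc (0 : ℝ) 2) := by
  apply Measure.pi_eq
  intro s hs
  rw [Measure.smul_apply, Measure.restrict_apply (MeasurableSet.univ_pi hs), ← Set.pi_inter_distrib,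
    volume_pi_pi, nu_eq]
  simp only [Measure.smul_apply, smul_eq_mul]
  rw [Finset.prod_mul_distrib]
  simp only [Finset.prod_const, Finset.card_univ, Fintype.card_fin]
  congr 1
  exact Finset.prod_congr rfl fun i _ => (Measure.restrict_apply (hs i)).symm

/-- change of variables on the cube -/
theorem lintegral_pi_nu {n : ℕ} {r : ℝ} (hr : 0 < r) {G : (Fin n → ℝ) → ℝ≥0∞} (hG : Measurable G) :
    ∫⁻ z, G (fun i => r * (z i - 1)) ∂(Measure.pi fun _ : Fin n => nu) =
      ENNReal.ofReal ((1 / (2 * r)) ^ n) *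
        ∫⁻ v in Set.pi univ fun _ : Fin n => Icc (-r) r, G v := by
  rw [pi_nu, lintegral_smul_measure]
  have hm1 : MeasurableSet (Set.pi univ fun _ : Fin n => Icc (0 : ℝ) 2) :=
    MeasurableSet.univ_pi fun _ => measurableSet_Icc
  have hm2 : MeasurableSet (Set.pi univ fun _ : Fin n => Icc (-r) r) :=
    MeasurableSet.univ_pi fun _ => measurableSet_Icc
  rw [← lintegral_indicator hm1, ← lintegral_indicator hm2]
  set H : (Fin n → ℝ) → ℝ≥0∞ := (Set.pi univ fun _ : Fin n => Icc (-r) r).indicator G with hH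
  have hHm : Measurable H := hG.indicator hm2
  have e1 : ∀ z : Fin n → ℝ, (Set.pi univ fun _ : Fin n => Icc (0 : ℝ) 2).indicator
      (fun z : Fin n → ℝ => G (fun i => r * (z i - 1))) z = H (r • (z - 1)) := by
    intro z
    have e2 : (fun i => r * (z i - 1)) = r • (z - 1) := by
      ext i; simp
    by_cases hz : z ∈ Set.pi univ fun _ : Fin n => Icc (0 : ℝ) 2
    · have hz' : r • (z - 1) ∈ Set.pi univ fun _ : Fin n => Icc (-r) r := by
        intro i _
        have := hz i trivial
        simp only [Pi.smul_apply, Pi.sub_apply, Pi.one_apply, smul_eq_mul, mem_Icc] at *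
        constructor <;> nlinarith
      rw [indicator_of_mem hz, hH, indicator_of_mem hz', e2]
    · have hz' : r • (z - 1) ∉ Set.pi univ fun _ : Fin n => Icc (-r) r := by
        intro h
        apply hz
        intro i _
        have := h i trivial
        simp only [Pi.smul_apply, Pi.sub_apply, Pi.one_apply, smul_eq_mul, mem_Icc] at *
        constructor <;> nlinarith
      rw [indicator_of_notMem hz, hH, indicator_of_notMem hz']
  simp only [e1]
  have e3 : ∫⁻ z : Fin n → ℝ, H (r • (z - 1)) = ∫⁻ z : Fin n → ℝ, H (r • z) :=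
    lintegral_sub_right_eq_self (fun z => H (r • z)) 1
  have e4 : ∫⁻ z : Fin n → ℝ, H (r • z) = ENNReal.ofReal (|(r ^ n)⁻¹|) * ∫⁻ z, H z := by
    have := Measure.map_addHaar_smul (volume : Measure (Fin n → ℝ)) hr.ne'
    rw [← smul_eq_mul, ← lintegral_smul_measure]
    simp only [Module.finrank_fintype_fun_eq_card, Fintype.card_fin] at this
    rw [← this, lintegral_map hHm (measurable_const_smul r)]
  rw [e3, e4, smul_eq_mul, ← mul_assoc]
  congr 1
  rw [← ENNReal.ofReal_pow (by norm_num), ← ENNReal.ofReal_mul (by positivity),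
    abs_of_pos (by positivity)]
  congr 1
  field_simp
  rw [← mul_pow]
  congr 1
  field_simp

section construction

variable (n : ℕ) (L a β α κ m : ℝ)

/-- the weight of the first coordinate -/
noncomputable def pw (x : ℝ) : ℝ := Real.exp (β * x) * (1 - a * x) ^ n

/-- the product measure -/
noncomputable def Pmeas : Measure (ℝ × (Fin n → ℝ)) :=
  (rho L (pw n a β)).prod (Measure.pi fun _ : Fin n => nu)

/-- the parametrisation -/
noncomputable def Phi (q : ℝ × (Fin n → ℝ)) : EuclideanSpace ℝ (Fin (n + 1)) :=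
  WithLp.toLp 2 (Fin.cons (α * (q.1 - m)) (fun i => κ * (1 - a * q.1) * (q.2 i - 1)))

/-- the measure of the counterexample -/
noncomputable def piM : Measure (EuclideanSpace ℝ (Fin (n + 1))) :=
  (Pmeas n L a β).map (Phi n a α κ m)

/-- the affine map -/
noncomputable def Saff (w : Fin (n + 1) → ℝ) : EuclideanSpace ℝ (Fin (n + 1)) :=
  WithLp.toLp 2 (Fin.cons (α * (w 0 - m)) (fun i => w i.succ))

/-- the convex body -/
def Kbody : Set (Fin (n + 1) → ℝ) :=
  {w | w 0 ∈ Icc 0 L ∧ ∀ i : Fin n, w i.succ ∈ Icc (-(κ * (1 - a * w 0))) (κ * (1 - a * w 0))}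

variable {n L a β α κ m}

theorem continuous_pw : Continuous (pw n a β) := by
  unfold pw; fun_prop

theorem pw_pos (ha : 0 ≤ a) (haL : a * L < 1) : ∀ x ∈ Icc 0 L, 0 < pw n a β x := by
  intro x hx
  have : 0 < 1 - a * x := by nlinarith [hx.2]
  unfold pw; positivity

theorem continuous_Phi : Continuous (Phi n a α κ m) := by
  unfold Phi
  refine (PiLp.continuous_toLp 2 _).comp ?_
  refine continuous_pi fun i => ?_
  refine Fin.cases ?_ (fun j => ?_) i
  · simp only [Fin.cons_zero]; fun_prop
  · simp only [Fin.cons_succ]; fun_prop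

theorem continuous_Saff : Continuous (Saff n α m) := by
  unfold Saff
  refine (PiLp.continuous_toLp 2 _).comp ?_
  refine continuous_pi fun i => ?_
  refine Fin.cases ?_ (fun j => ?_) i
  · simp only [Fin.cons_zero]; fun_prop
  · simp only [Fin.cons_succ]; fun_prop

theorem isProb_Pmeas (hL : 0 < L) (ha : 0 ≤ a) (haL : a * L < 1) :
    IsProbabilityMeasure (Pmeas n L a β) := by
  have := isProbabilityMeasure_rho hL continuous_pw (pw_pos (n := n) (β := β) ha haL)
  unfold Pmeas
  infer_instance

theorem isProb_piM (hL : 0 < L) (ha : 0 ≤ a) (haL : a * L < 1) :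
    IsProbabilityMeasure (piM n L a β α κ m) := by
  have := isProb_Pmeas (n := n) (β := β) hL ha haL
  exact Measure.isProbabilityMeasure_map continuous_Phi.measurable.aemeasurable

theorem measurableSet_Kbody : MeasurableSet (Kbody n L a κ) := by
  have : Kbody n L a κ = {w : Fin (n + 1) → ℝ | w 0 ∈ Icc 0 L} ∩
      ⋂ i : Fin n, ({w : Fin (n + 1) → ℝ | -(κ * (1 - a * w 0)) ≤ w i.succ} ∩
        {w : Fin (n + 1) → ℝ | w i.succ ≤ κ * (1 - a * w 0)}) := by
    ext w; simp [Kbody]
  rw [this]
  refine MeasurableSet.inter (measurableSet_Icc.preimage (measurable_pi_apply 0)) ?_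
  refine MeasurableSet.iInter fun i => MeasurableSet.inter ?_ ?_
  · exact measurableSet_le (by fun_prop) (by fun_prop)
  · exact measurableSet_le (by fun_prop) (by fun_prop)

theorem piM_apply (hL : 0 < L) (ha : 0 ≤ a) (haL : a * L < 1) (hκ : 0 < κ)
    {A : Set (EuclideanSpace ℝ (Fin (n + 1)))} (hA : MeasurableSet A) :
    piM n L a β α κ m A = ENNReal.ofReal (1 / ((∫ y in (0)..L, pw n a β y) * (2 * κ) ^ n)) *
      ∫⁻ w, (Kbody n L a κ).indicator (fun w => ENNReal.ofReal (Real.exp (β * w 0)) *
        A.indicator 1 (Saff n α m w)) w := by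
  have hp0 := pw_pos (n := n) (β := β) ha haL
  have hprob := isProbabilityMeasure_rho hL continuous_pw hp0
  have hZ := Z_pos hL continuous_pw hp0
  set Z := ∫ y in (0)..L, pw n a β y with hZdef
  have hint : Measurable fun w : Fin (n + 1) → ℝ => (Kbody n L a κ).indicator
      (fun w => ENNReal.ofReal (Real.exp (β * w 0)) *
        A.indicator (1 : EuclideanSpace ℝ (Fin (n + 1)) → ℝ≥0∞) (Saff n α m w)) w := by
    apply Measurable.indicator _ measurableSet_Kbody
    apply Measurable.mul (by fun_prop)
    exact (measurable_one.indicator hA).comp continuous_Saff.measurable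
  rw [lintegral_cons n hint]
  unfold piM
  rw [Measure.map_apply continuous_Phi.measurable hA]
  have hpre : MeasurableSet (Phi n a α κ m ⁻¹' A) := continuous_Phi.measurable hA
  rw [← lintegral_indicator_one hpre]
  unfold Pmeas
  rw [lintegral_prod _ (measurable_one.indicator hpre).aemeasurable,
    lintegral_rho continuous_pw]
  rw [← lintegral_const_mul _ (by
    have : Measurable fun p : ℝ × (Fin n → ℝ) => (Fin.cons p.1 p.2 : Fin (n + 1) → ℝ) := by
      refine measurable_pi_lambda _ fun i => ?_
      refine Fin.cases ?_ (fun j => ?_) i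
      · simpa using measurable_fst
      · simp only [Fin.cons_succ]
        exact (measurable_pi_apply j).comp measurable_snd
    exact (hint.comp this).lintegral_prod_right')]
  rw [← lintegral_indicator measurableSet_Icc]
  congr 1
  ext x
  by_cases hx : x ∈ Icc 0 L
  · rw [indicator_of_mem hx]
    have h1 : 0 < 1 - a * x := by nlinarith [hx.2]
    have hr : 0 < κ * (1 - a * x) := by positivity
    have e1 : ∀ z : Fin n → ℝ, (Phi n a α κ m ⁻¹' A).indicator
        (1 : ℝ × (Fin n → ℝ) → ℝ≥0∞) (x, z) =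
        (fun v : Fin n → ℝ => A.indicator (1 : EuclideanSpace ℝ (Fin (n + 1)) → ℝ≥0∞)
          (Saff n α m (Fin.cons x v))) (fun i => κ * (1 - a * x) * (z i - 1)) := by
      intro z
      have : Saff n α m (Fin.cons x fun i => κ * (1 - a * x) * (z i - 1)) = Phi n a α κ m (x, z) := by
        unfold Saff Phi
        congr 1
      simp only [this]
      by_cases h : Phi n a α κ m (x, z) ∈ A
      · rw [indicator_of_mem h, indicator_of_mem (show (x, z) ∈ Phi n a α κ m ⁻¹' A from h)]
        rfl
      · rw [indicator_of_notMem h, indicator_of_notMem (show (x, z) ∉ Phi n a α κ m ⁻¹' A from h)]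
    have hmA : Measurable fun v : Fin n → ℝ => A.indicator
        (1 : EuclideanSpace ℝ (Fin (n + 1)) → ℝ≥0∞) (Saff n α m (Fin.cons x v)) := by
      refine (measurable_one.indicator hA).comp (continuous_Saff.measurable.comp ?_)
      refine measurable_pi_lambda _ fun i => ?_
      refine Fin.cases ?_ (fun j => ?_) i
      · simp
      · simp only [Fin.cons_succ]
        exact measurable_pi_apply j
    simp only [e1]
    rw [lintegral_pi_nu hr hmA]
    have hmc : MeasurableSet (Set.pi univ fun _ : Fin n =>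
        Icc (-(κ * (1 - a * x))) (κ * (1 - a * x))) :=
      MeasurableSet.univ_pi fun _ => measurableSet_Icc
    have e2 : ∀ y : Fin n → ℝ, (Kbody n L a κ).indicator (fun w : Fin (n + 1) → ℝ =>
        ENNReal.ofReal (Real.exp (β * w 0)) *
        A.indicator (1 : EuclideanSpace ℝ (Fin (n + 1)) → ℝ≥0∞) (Saff n α m w)) (Fin.cons x y) =
        ENNReal.ofReal (Real.exp (β * x)) * (Set.pi univ fun _ : Fin n =>
          Icc (-(κ * (1 - a * x))) (κ * (1 - a * x))).indicator (fun v => A.indicator
        (1 : EuclideanSpace ℝ (Fin (n + 1)) → ℝ≥0∞) (Saff n α m (Fin.cons x v))) y := by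
      intro y
      by_cases h : y ∈ (Set.pi univ fun _ : Fin n => Icc (-(κ * (1 - a * x))) (κ * (1 - a * x)))
      · have h' : (Fin.cons x y : Fin (n + 1) → ℝ) ∈ Kbody n L a κ := by
          refine ⟨hx, fun i => ?_⟩
          simpa using h i trivial
        rw [indicator_of_mem h, indicator_of_mem h']
        simp
      · have h' : (Fin.cons x y : Fin (n + 1) → ℝ) ∉ Kbody n L a κ := by
          intro h'
          apply h
          intro i _
          simpa using h'.2 i
        rw [indicator_of_notMem h, indicator_of_notMem h', mul_zero]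
    simp only [e2]
    rw [lintegral_const_mul _ (hmA.indicator hmc), lintegral_indicator hmc, ← hZdef, ← mul_assoc,
      ← ENNReal.ofReal_mul (by have := hp0 x hx; positivity),
      ← mul_assoc (ENNReal.ofReal (1 / (Z * (2 * κ) ^ n))),
      ← ENNReal.ofReal_mul (by positivity)]
    congr 2
    unfold pw
    have hq : 1 - a * x ≠ 0 := h1.ne'
    generalize 1 - a * x = q at hq
    rw [div_pow, one_pow, mul_pow, mul_pow, mul_pow]
    field_simp
  · rw [indicator_of_notMem hx]
    have e2 : ∀ y : Fin n → ℝ, (Kbody n L a κ).indicator (fun w : Fin (n + 1) → ℝ =>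
        ENNReal.ofReal (Real.exp (β * w 0)) *
        A.indicator (1 : EuclideanSpace ℝ (Fin (n + 1)) → ℝ≥0∞) (Saff n α m w)) (Fin.cons x y) =
        0 := by
      intro y
      apply indicator_of_notMem
      intro h
      exact hx h.1
    simp [e2]

theorem Saff_comb (x y : Fin (n + 1) → ℝ) (t : ℝ) :
    Saff n α m (t • x + (1 - t) • y) = t • Saff n α m x + (1 - t) • Saff n α m y := by
  unfold Saff
  ext i
  refine Fin.cases ?_ (fun j => ?_) i
  · simp
    ring
  · simp

theorem Kbody_conv (ha : 0 ≤ a) (hκ : 0 < κ) {x y : Fin (n + 1) → ℝ} (hx : x ∈ Kbody n L a κ)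
    (hy : y ∈ Kbody n L a κ) {t : ℝ} (ht0 : 0 < t) (ht1 : t < 1) :
    t • x + (1 - t) • y ∈ Kbody n L a κ := by
  obtain ⟨⟨hx1, hx2⟩, hx3⟩ := hx
  obtain ⟨⟨hy1, hy2⟩, hy3⟩ := hy
  have ht : 0 < 1 - t := by linarith
  refine ⟨⟨?_, ?_⟩, fun i => ⟨?_, ?_⟩⟩
  · simp only [Pi.add_apply, Pi.smul_apply, smul_eq_mul]; positivity
  · simp only [Pi.add_apply, Pi.smul_apply, smul_eq_mul]; nlinarith
  · simp only [Pi.add_apply, Pi.smul_apply, smul_eq_mul]
    have h1 := (hx3 i).1
    have h2 := (hy3 i).1
    nlinarith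
  · simp only [Pi.add_apply, Pi.smul_apply, smul_eq_mul]
    have h1 := (hx3 i).2
    have h2 := (hy3 i).2
    nlinarith

theorem isLogconcave_piM (hL : 0 < L) (ha : 0 ≤ a) (haL : a * L < 1) (hκ : 0 < κ) :
    IsLogconcave (piM n L a β α κ m) := by
  intro A B hA hB hAn hBn t ht0 ht1
  rcases ht0.eq_or_lt with rfl | ht0
  · simp only [ENNReal.rpow_zero, one_mul, sub_zero, ENNReal.rpow_one, one_smul,
      zero_smul_set hAn, zero_add]
    exact le_rfl
  rcases ht1.eq_or_lt with rfl | ht1
  · simp only [ENNReal.rpow_one, sub_self, ENNReal.rpow_zero, mul_one, one_smul,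
      zero_smul_set hBn, add_zero]
    exact le_rfl
  have ht1' : 0 < 1 - t := by linarith
  have hC : IsCompact (t • A + (1 - t) • B) := (hA.smul t).add (hB.smul (1 - t))
  rw [piM_apply hL ha haL hκ hA.measurableSet, piM_apply hL ha haL hκ hB.measurableSet,
    piM_apply hL ha haL hκ hC.measurableSet]
  set c := ENNReal.ofReal (1 / ((∫ y in (0)..L, pw n a β y) * (2 * κ) ^ n)) with hc
  have hcc : c = c ^ t * c ^ (1 - t) := by
    rw [← ENNReal.rpow_add_of_nonneg _ _ ht0.le ht1'.le]; simp
  have hmeas : ∀ D : Set (EuclideanSpace ℝ (Fin (n + 1))), MeasurableSet D →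
      Measurable fun w : Fin (n + 1) → ℝ => (Kbody n L a κ).indicator
      (fun w => ENNReal.ofReal (Real.exp (β * w 0)) *
        D.indicator (1 : EuclideanSpace ℝ (Fin (n + 1)) → ℝ≥0∞) (Saff n α m w)) w := by
    intro D hD
    apply Measurable.indicator _ measurableSet_Kbody
    apply Measurable.mul (by fun_prop)
    exact (measurable_one.indicator hD).comp continuous_Saff.measurable
  have key := prekopa_leindler ht0 ht1 (n + 1) (hmeas A hA.measurableSet)
    (hmeas B hB.measurableSet) (hmeas _ hC.measurableSet) (by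
      intro x y
      by_cases hx : x ∈ Kbody n L a κ
      swap
      · rw [indicator_of_notMem hx, ENNReal.zero_rpow_of_pos ht0, zero_mul]; exact zero_le
      by_cases hy : y ∈ Kbody n L a κ
      swap
      · rw [indicator_of_notMem hy, ENNReal.zero_rpow_of_pos ht1', mul_zero]; exact zero_le
      by_cases hxA : Saff n α m x ∈ A
      swap
      · rw [indicator_of_mem hx, indicator_of_notMem hxA, mul_zero,
          ENNReal.zero_rpow_of_pos ht0, zero_mul]; exact zero_le
      by_cases hyB : Saff n α m y ∈ B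
      swap
      · rw [indicator_of_mem hy, indicator_of_notMem hyB, mul_zero,
          ENNReal.zero_rpow_of_pos ht1', mul_zero]; exact zero_le
      have hxy := Kbody_conv ha hκ hx hy ht0 ht1
      have hS : Saff n α m (t • x + (1 - t) • y) ∈ t • A + (1 - t) • B := by
        rw [Saff_comb]
        exact Set.add_mem_add (Set.smul_mem_smul_set hxA) (Set.smul_mem_smul_set hyB)
      rw [indicator_of_mem hx, indicator_of_mem hy, indicator_of_mem hxy, indicator_of_mem hxA,
        indicator_of_mem hyB, indicator_of_mem hS]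
      simp only [Pi.one_apply, mul_one]
      rw [ENNReal.ofReal_rpow_of_pos (Real.exp_pos _), ENNReal.ofReal_rpow_of_pos (Real.exp_pos _),
        ← ENNReal.ofReal_mul (by positivity), ← Real.exp_mul, ← Real.exp_mul, ← Real.exp_add]
      apply le_of_eq
      congr 2
      simp only [Pi.add_apply, Pi.smul_apply, smul_eq_mul]
      ring)
  rw [ENNReal.mul_rpow_of_nonneg _ _ ht0.le, ENNReal.mul_rpow_of_nonneg _ _ ht1'.le]
  calc _ = (c ^ t * c ^ (1 - t)) * ((∫⁻ w, (Kbody n L a κ).indicator
      (fun w => ENNReal.ofReal (Real.exp (β * w 0)) *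
        A.indicator 1 (Saff n α m w)) w) ^ t * (∫⁻ w, (Kbody n L a κ).indicator
      (fun w => ENNReal.ofReal (Real.exp (β * w 0)) *
        B.indicator 1 (Saff n α m w)) w) ^ (1 - t)) := by ring
    _ ≤ c * _ := by
      rw [← hcc]
      gcongr

end construction

end Pool.Agent.helper96
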