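import Mathlib
import Pool.Agent.helper96.Build1

open MeasureTheory Set
open scoped ENNReal NNReal Pointwise Gradient InnerProductSpace

namespace Pool.Agent.helper96

section lsi

variable {n : ℕ} {L a β α κ m : ℝ}

/-- the x-derivative of `Phi` -/
noncomputable def V1 (n : ℕ) (a α κ : ℝ) (q : ℝ × (Fin n → ℝ)) : EuclideanSpace ℝ (Fin (n + 1)) :=
  WithLp.toLp 2 (Fin.cons α (fun i => -(κ * a) * (q.2 i - 1)))

theorem hasDerivAt_Phi (z : Fin n → ℝ) (x : ℝ) :
    HasDerivAt (fun s => Phi n a α κ m (s, z)) (V1 n a α κ (x, z)) x := by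
  have h1 : HasDerivAt (fun s : ℝ => (Fin.cons (α * (s - m)) (fun i => κ * (1 - a * s) * (z i - 1)) :
      Fin (n + 1) → ℝ)) (Fin.cons α (fun i => -(κ * a) * (z i - 1))) x := by
    rw [hasDerivAt_pi]
    intro i
    refine Fin.cases ?_ (fun j => ?_) i
    · simp only [Fin.cons_zero]
      simpa using ((hasDerivAt_id' x).sub_const m).const_mul α
    · simp only [Fin.cons_succ]
      have := ((((hasDerivAt_id' x).const_mul a).const_sub 1).const_mul κ).mul_const (z j - 1)
      exact this.congr_deriv (by ring)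
  have h2 := ((PiLp.continuousLinearEquiv 2 ℝ (fun _ : Fin (n + 1) => ℝ)).symm).hasFDerivAt
    (x := (Fin.cons (α * (x - m)) (fun i => κ * (1 - a * x) * (z i - 1)) : Fin (n + 1) → ℝ))
  exact h2.comp_hasDerivAt x h1

theorem hasFDerivAt_Phi (x : ℝ) (z : Fin n → ℝ) :
    HasFDerivAt (fun z => Phi n a α κ m (x, z))
      (((PiLp.continuousLinearEquiv 2 ℝ (fun _ : Fin (n + 1) => ℝ)).symm :
        (Fin (n + 1) → ℝ) →L[ℝ] EuclideanSpace ℝ (Fin (n + 1))).comp
        ((consD n).comp ((κ * (1 - a * x)) • (ContinuousLinearMap.id ℝ (Fin n → ℝ))))) z := by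
  have h1 : HasFDerivAt (fun z : Fin n → ℝ => (κ * (1 - a * x)) • (z - 1))
      ((κ * (1 - a * x)) • (ContinuousLinearMap.id ℝ (Fin n → ℝ))) z :=
    ((hasFDerivAt_id z).sub_const 1).const_smul (κ * (1 - a * x))
  have h2 := (hasFDerivAt_cons ((κ * (1 - a * x)) • (z - 1)) (α * (x - m))).comp z h1
  have h3 := ((PiLp.continuousLinearEquiv 2 ℝ (fun _ : Fin (n + 1) => ℝ)).symm).hasFDerivAt
    (x := (Fin.cons (α * (x - m)) ((κ * (1 - a * x)) • (z - 1)) : Fin (n + 1) → ℝ))
  exact h3.comp z h2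

theorem contDiff_Phi_left (z : Fin n → ℝ) : ContDiff ℝ 1 (fun s => Phi n a α κ m (s, z)) := by
  unfold Phi
  refine ((PiLp.continuousLinearEquiv 2 ℝ (fun _ : Fin (n + 1) => ℝ)).symm).contDiff.comp ?_
  rw [contDiff_pi]
  intro i
  refine Fin.cases ?_ (fun j => ?_) i
  · simp only [Fin.cons_zero]; fun_prop
  · simp only [Fin.cons_succ]; fun_prop

theorem contDiff_Phi_right (x : ℝ) : ContDiff ℝ 1 (fun z => Phi n a α κ m (x, z)) := by
  unfold Phi
  refine ((PiLp.continuousLinearEquiv 2 ℝ (fun _ : Fin (n + 1) => ℝ)).symm).contDiff.comp ?_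
  rw [contDiff_pi]
  intro i
  refine Fin.cases ?_ (fun j => ?_) i
  · simp only [Fin.cons_zero]; fun_prop
  · simp only [Fin.cons_succ]; fun_prop

theorem fderiv_sq_le {E : Type*} [NormedAddCommGroup E] [InnerProductSpace ℝ E] [CompleteSpace E]
    (f : E → ℝ) (p v : E) : (fderiv ℝ f p v) ^ 2 ≤ ‖gradient f p‖ ^ 2 * ‖v‖ ^ 2 := by
  have h1 : fderiv ℝ f p v = ⟪gradient f p, v⟫_ℝ := by
    rw [gradient, InnerProductSpace.toDual_symm_apply]
  rw [h1, ← mul_pow]
  apply sq_le_sq'
  · have := abs_real_inner_le_norm (gradient f p) v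
    have h2 := neg_abs_le (⟪gradient f p, v⟫_ℝ)
    linarith
  · exact real_inner_le_norm _ _

theorem V1_norm_sq (q : ℝ × (Fin n → ℝ)) :
    ‖V1 n a α κ q‖ ^ 2 = α ^ 2 + (κ * a) ^ 2 * ∑ i, (q.2 i - 1) ^ 2 := by
  rw [EuclideanSpace.norm_sq_eq, Fin.sum_univ_succ, Finset.mul_sum]
  simp only [V1, Fin.cons_zero, Fin.cons_succ, Real.norm_eq_abs, sq_abs]
  congr 1
  apply Finset.sum_congr rfl
  intro i _
  ring

theorem V1_norm_sq_le {q : ℝ × (Fin n → ℝ)} (hq : q.2 ∈ Set.pi univ fun _ : Fin n => Icc (0 : ℝ) 2) :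
    ‖V1 n a α κ q‖ ^ 2 ≤ α ^ 2 + (κ * a) ^ 2 * n := by
  rw [V1_norm_sq]
  have : ∑ i, (q.2 i - 1) ^ 2 ≤ (n : ℝ) := by
    calc ∑ i, (q.2 i - 1) ^ 2 ≤ ∑ _i : Fin n, (1 : ℝ) := by
          apply Finset.sum_le_sum
          intro i _
          have := hq i trivial
          simp only [mem_Icc] at this
          nlinarith
      _ = n := by simp
  gcongr

theorem ae_mem_nu : ∀ᵐ x ∂nu, x ∈ Icc (0 : ℝ) 2 := ae_mem_rho

/-- compact support of the product measure -/
theorem Pmeas_ae (hL : 0 < L) (ha : 0 ≤ a) (haL : a * L < 1) :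
    ∀ᵐ q ∂(Pmeas n L a β), q ∈ (Icc 0 L) ×ˢ (Set.pi univ fun _ : Fin n => Icc (0 : ℝ) 2) := by
  have := isProbabilityMeasure_rho hL continuous_pw (pw_pos (n := n) (β := β) ha haL)
  have h1 : ∀ᵐ p ∂(Pmeas n L a β), p.1 ∈ Icc 0 L :=
    Measure.quasiMeasurePreserving_fst.ae ae_mem_rho
  have h2 : ∀ᵐ p ∂(Pmeas n L a β), p.2 ∈ Set.pi univ fun _ : Fin n => Icc (0 : ℝ) 2 :=
    Measure.quasiMeasurePreserving_snd.ae (ae_pi_mem ae_mem_nu n)
  filter_upwards [h1, h2] with p hp1 hp2 using ⟨hp1, hp2⟩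

theorem isCompact_box : IsCompact ((Icc 0 L) ×ˢ (Set.pi univ fun _ : Fin n => Icc (0 : ℝ) 2)) :=
  isCompact_Icc.prod (isCompact_univ_pi fun _ => isCompact_Icc)

theorem lsi_nu {f : ℝ → ℝ} (hf : ContDiff ℝ 1 f) :
    ent nu (fun x => f x ^ 2) ≤ 700 * ∫ x, (deriv f x) ^ 2 ∂nu := by
  have h := lsi_rho (L := 2) (p := fun _ => 1) (b0 := 1) (b1 := Real.exp 2) (by norm_num)
    continuous_const one_pos
    (fun x hx => by
      rw [one_mul]
      exact Real.exp_le_one_iff.mpr (by linarith [hx.1]))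
    (fun x hx => by
      rw [← Real.exp_add]
      exact Real.one_le_exp (by linarith [hx.2])) hf
  have hI : 0 ≤ ∫ x, (deriv f x) ^ 2 ∂nu := integral_nonneg fun x => sq_nonneg _
  have he : Real.exp 2 ≤ 7.5 := by
    have h1 : Real.exp 1 < 2.7182818286 := Real.exp_one_lt_d9
    have h2 : Real.exp 2 = Real.exp 1 * Real.exp 1 := by rw [← Real.exp_add]; norm_num
    rw [h2]
    nlinarith [Real.exp_pos 1]
  refine h.trans ?_
  apply mul_le_mul_of_nonneg_right _ hI
  linarith

/-- Log-Sobolev inequality for the constructed measure -/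
theorem lsi_piM (hL : 0 < L) (ha : 0 ≤ a) (haL : a * L < 1) {c : ℝ} (hc : 0 ≤ c)
    (hρ : ∀ f : ℝ → ℝ, ContDiff ℝ 1 f → ent (rho L (pw n a β)) (fun x => f x ^ 2) ≤
      c * ∫ x, (deriv f x) ^ 2 ∂(rho L (pw n a β)))
    {f : EuclideanSpace ℝ (Fin (n + 1)) → ℝ} (hf : ContDiff ℝ 1 f) :
    ent (piM n L a β α κ m) (fun x => f x ^ 2) ≤
      (c * (α ^ 2 + (κ * a) ^ 2 * n) + 700 * κ ^ 2) *
        ∫ x, ‖gradient f x‖ ^ 2 ∂(piM n L a β α κ m) := by
  have hprobρ := isProbabilityMeasure_rho hL continuous_pw (pw_pos (n := n) (β := β) ha haL)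
  have hprob := isProb_Pmeas (n := n) (β := β) hL ha haL
  have hfc := hf.continuous
  have hfd := hf.continuous_fderiv one_ne_zero
  have hgc : Continuous (gradient f) := by
    unfold gradient
    exact (InnerProductSpace.toDual ℝ _).symm.continuous.comp hfd
  have hΦc : Continuous (Phi n a α κ m) := continuous_Phi
  have hlogc : Continuous fun x => f x ^ 2 * Real.log (f x ^ 2) :=
    Real.continuous_mul_log.comp (hfc.pow 2)
  set g : ℝ × (Fin n → ℝ) → ℝ := fun q => f (Phi n a α κ m q) ^ 2 with hg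
  have hgcont : Continuous g := (hfc.comp hΦc).pow 2
  have e1 : ent (piM n L a β α κ m) (fun x => f x ^ 2) = ent (Pmeas n L a β) g := by
    unfold ent piM
    rw [integral_map hΦc.measurable.aemeasurable hlogc.aestronglyMeasurable,
      integral_map hΦc.measurable.aemeasurable
        (show Continuous fun x => f x ^ 2 from hfc.pow 2).aestronglyMeasurable]
  have e2 : ∫ x, ‖gradient f x‖ ^ 2 ∂(piM n L a β α κ m) =
      ∫ q, ‖gradient f (Phi n a α κ m q)‖ ^ 2 ∂(Pmeas n L a β) := by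
    unfold piM
    rw [integral_map hΦc.measurable.aemeasurable
      (show Continuous fun x => ‖gradient f x‖ ^ 2 from hgc.norm.pow 2).aestronglyMeasurable]
  rw [e1, e2]
  have hae := Pmeas_ae (n := n) (β := β) hL ha haL
  obtain ⟨M, hM⟩ := (isCompact_box (n := n) (L := L)).exists_bound_of_continuousOn hgcont.continuousOn
  have hV1c : Continuous (V1 n a α κ) := by
    unfold V1
    refine (PiLp.continuous_toLp 2 _).comp ?_
    refine continuous_pi fun i => ?_
    refine Fin.cases ?_ (fun j => ?_) i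
    · simp only [Fin.cons_zero]; fun_prop
    · simp only [Fin.cons_succ]; fun_prop
  set U : ℝ × (Fin n → ℝ) → ℝ := fun q =>
    c * (fderiv ℝ f (Phi n a α κ m q) (V1 n a α κ q)) ^ 2 with hU
  have hV2c : ∀ i : Fin n, Continuous fun q : ℝ × (Fin n → ℝ) =>
      fderiv ℝ f (Phi n a α κ m q) ((κ * (1 - a * q.1)) •
        EuclideanSpace.single i.succ (1 : ℝ)) := by
    intro i
    refine (hfd.comp hΦc).clm_apply ?_
    fun_prop
  set V : ℝ × (Fin n → ℝ) → ℝ := fun q =>
    700 * ∑ i : Fin n, (fderiv ℝ f (Phi n a α κ m q) ((κ * (1 - a * q.1)) •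
        EuclideanSpace.single i.succ (1 : ℝ))) ^ 2 with hV
  have hUc : Continuous U := continuous_const.mul (((hfd.comp hΦc).clm_apply hV1c).pow 2)
  have hVc : Continuous V := continuous_const.mul
    (continuous_finsetSum _ fun i _ => (hV2c i).pow 2)
  have hUi : Integrable U (Pmeas n L a β) := integrable_of_compact isCompact_box hae hUc
  have hVi : Integrable V (Pmeas n L a β) := integrable_of_compact isCompact_box hae hVc
  have hTm : MeasurableSet (Set.pi univ fun _ : Fin n => Icc (0 : ℝ) 2) :=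
      MeasurableSet.univ_pi fun _ => measurableSet_Icc
  have step := ent_prod_le_of_slices (μ := rho L (pw n a β)) (ν := Measure.pi fun _ : Fin n => nu)
      measurableSet_Icc hTm ae_mem_rho (ae_pi_mem ae_mem_nu n) hgcont.measurable
      (M := M) (fun p => sq_nonneg _) (fun x hx y hy => (le_abs_self _).trans (hM (x, y) ⟨hx, hy⟩))
      hUi hVi
      (by
        intro z _
        have := hρ (fun s => f (Phi n a α κ m (s, z))) (hf.comp (contDiff_Phi_left z))
        simp only [hg, hU]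
        rw [integral_const_mul]
        refine this.trans (le_of_eq ?_)
        congr 2
        ext s
        congr 1
        have h1 : HasFDerivAt f (fderiv ℝ f (Phi n a α κ m (s, z))) (Phi n a α κ m (s, z)) :=
          (hf.differentiable one_ne_zero).differentiableAt.hasFDerivAt
        exact (h1.comp_hasDerivAt s (hasDerivAt_Phi z s)).deriv)
      (by
        intro x _
        have := lsi_pi (ν := nu) (a := 0) (b := 2) ae_mem_nu (c := 700) (fun f hf => lsi_nu hf) n
          (fun z => f (Phi n a α κ m (x, z))) (hf.comp (contDiff_Phi_right x))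
        simp only [hg, hV]
        rw [integral_const_mul]
        refine this.trans (le_of_eq ?_)
        congr 2
        ext z
        apply Finset.sum_congr rfl
        intro i _
        congr 1
        have h1 : HasFDerivAt f (fderiv ℝ f (Phi n a α κ m (x, z))) (Phi n a α κ m (x, z)) :=
          (hf.differentiable one_ne_zero).differentiableAt.hasFDerivAt
        have h2 : HasFDerivAt (fun z => f (Phi n a α κ m (x, z))) _ z :=
          h1.comp z (hasFDerivAt_Phi x z)
        unfold pd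
        rw [h2.fderiv]
        simp only [ContinuousLinearMap.coe_comp, Function.comp_apply]
        congr 1
        ext j
        refine Fin.cases ?_ (fun k => ?_) j
        · simp [consD]
        · simp [consD, Pi.single_apply])
  refine step.trans ?_
  have hGi : Integrable (fun q => (c * (α ^ 2 + (κ * a) ^ 2 * n) + 700 * κ ^ 2) *
      ‖gradient f (Phi n a α κ m q)‖ ^ 2) (Pmeas n L a β) :=
    integrable_of_compact isCompact_box hae
      (continuous_const.mul ((hgc.comp hΦc).norm.pow 2))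
  rw [← integral_const_mul]
  apply integral_mono_ae (hUi.add hVi) hGi
  filter_upwards [hae] with q hq
  show U q + V q ≤ _
  simp only [hU, hV]
  set G := gradient f (Phi n a α κ m q) with hGdef
  have b1 : (fderiv ℝ f (Phi n a α κ m q) (V1 n a α κ q)) ^ 2 ≤
      ‖G‖ ^ 2 * (α ^ 2 + (κ * a) ^ 2 * n) := by
    refine (fderiv_sq_le f _ _).trans ?_
    have := V1_norm_sq_le (a := a) (α := α) (κ := κ) hq.2
    gcongr
  have b2 : ∑ i : Fin n, (fderiv ℝ f (Phi n a α κ m q) ((κ * (1 - a * q.1)) •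
        EuclideanSpace.single i.succ (1 : ℝ))) ^ 2 ≤ κ ^ 2 * ‖G‖ ^ 2 := by
    have e3 : ∀ i : Fin n, fderiv ℝ f (Phi n a α κ m q) ((κ * (1 - a * q.1)) •
        EuclideanSpace.single i.succ (1 : ℝ)) = (κ * (1 - a * q.1)) * G i.succ := by
      intro i
      have h1 : fderiv ℝ f (Phi n a α κ m q) (EuclideanSpace.single i.succ (1 : ℝ)) =
          ⟪G, EuclideanSpace.single i.succ (1 : ℝ)⟫_ℝ := by
        rw [hGdef, gradient, InnerProductSpace.toDual_symm_apply]
      rw [map_smul, smul_eq_mul, h1]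
      congr 1
      rw [EuclideanSpace.inner_single_right]
      simp
    simp only [e3, mul_pow]
    rw [← Finset.mul_sum]
    have h2 : ∑ i : Fin n, G i.succ ^ 2 ≤ ‖G‖ ^ 2 := by
      rw [EuclideanSpace.norm_sq_eq, Fin.sum_univ_succ]
      simp only [Real.norm_eq_abs, sq_abs]
      nlinarith [sq_nonneg (G 0)]
    have h3 : (1 - a * q.1) ^ 2 ≤ 1 := by
      have h4 := hq.1
      simp only [mem_Icc] at h4
      have : 0 ≤ a * q.1 := mul_nonneg ha h4.1
      have : a * q.1 ≤ a * L := by gcongr; exact h4.2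
      nlinarith
    have h5 : 0 ≤ ∑ i : Fin n, G i.succ ^ 2 := Finset.sum_nonneg fun i _ => sq_nonneg _
    calc κ ^ 2 * (1 - a * q.1) ^ 2 * ∑ i : Fin n, G i.succ ^ 2 ≤ κ ^ 2 * 1 * ‖G‖ ^ 2 := by
          gcongr
      _ = κ ^ 2 * ‖G‖ ^ 2 := by ring
  nlinarith [mul_le_mul_of_nonneg_left b1 hc]

end lsi

end Pool.Agent.helper96
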