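import Mathlib
import Pool.Agent.helper96.Build2

open MeasureTheory Set
open scoped ENNReal NNReal Pointwise Gradient InnerProductSpace

namespace Pool.Agent.helper96

/-! ### moments of the uniform law -/

theorem integrable_nu {F : ℝ → ℝ} (hF : Continuous F) : Integrable F nu :=
  integrable_rho (by norm_num) continuous_const (fun _ _ => one_pos) hF

theorem integral_nu (F : ℝ → ℝ) : ∫ x, F x ∂nu = (∫ x in (0)..2, F x) / 2 := by
  unfold nu
  rw [integral_rho (by norm_num) continuous_const (fun _ _ => one_pos)]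
  simp

theorem nu_one : ∫ z, (z - 1) ∂nu = 0 := by
  rw [integral_nu]
  rw [intervalIntegral.integral_sub (by apply Continuous.intervalIntegrable; fun_prop)
    (by apply Continuous.intervalIntegrable; fun_prop)]
  simp
  norm_num

theorem nu_two : ∫ z, (z - 1) ^ 2 ∂nu = 1 / 3 := by
  rw [integral_nu]
  rw [intervalIntegral.integral_comp_sub_right (fun x => x ^ 2)]
  simp
  norm_num

theorem integral_pi_one {n : ℕ} (j : Fin n) :
    ∫ z, (z j - 1) ∂(Measure.pi fun _ : Fin n => nu) = 0 := by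
  have h := measurePreserving_eval (fun _ : Fin n => nu) j
  have h3 := integral_map (μ := Measure.pi fun _ : Fin n => nu) h.measurable.aemeasurable
    (f := fun t : ℝ => t - 1) (by fun_prop : Continuous fun t : ℝ => t - 1).aestronglyMeasurable
  rw [h.map_eq, nu_one] at h3
  exact h3.symm

theorem integral_pi_two {n : ℕ} (j k : Fin n) :
    ∫ z, (z j - 1) * (z k - 1) ∂(Measure.pi fun _ : Fin n => nu) = if j = k then 1 / 3 else 0 := by
  split_ifs with hjk
  · subst hjk
    have h := measurePreserving_eval (fun _ : Fin n => nu) j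
    have h3 := integral_map (μ := Measure.pi fun _ : Fin n => nu) h.measurable.aemeasurable
      (f := fun t : ℝ => (t - 1) ^ 2)
      (by fun_prop : Continuous fun t : ℝ => (t - 1) ^ 2).aestronglyMeasurable
    rw [h.map_eq, nu_two] at h3
    rw [h3]
    congr 1
    ext z
    simp only [Function.eval, sq]
  · have h := integral_fintype_prod_eq_prod (μ := fun _ : Fin n => nu)
      (f := fun (i : Fin n) (t : ℝ) => (if i = j then (t - 1) else 1) * (if i = k then (t - 1) else 1))
    have h2 : (fun z : Fin n → ℝ => ∏ i, (if i = j then (z i - 1) else 1) *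
        (if i = k then (z i - 1) else 1)) = fun z => (z j - 1) * (z k - 1) := by
      ext z
      rw [Finset.prod_mul_distrib]
      simp
    simp only [h2] at h
    rw [h]
    apply Finset.prod_eq_zero (Finset.mem_univ j)
    simp [hjk, nu_one]

/-! ### the Laplace-type function -/

/-- `E exp(-τ (z-1)^2)` under the uniform law -/
noncomputable def gg (τ : ℝ) : ℝ := ∫ z, Real.exp (-(τ * (z - 1) ^ 2)) ∂nu

theorem gg_le_one {τ : ℝ} (h : 0 ≤ τ) : gg τ ≤ 1 := by
  unfold gg
  calc ∫ z, Real.exp (-(τ * (z - 1) ^ 2)) ∂nu ≤ ∫ _z, (1 : ℝ) ∂nu := by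
        apply integral_mono (integrable_nu (by fun_prop)) (integrable_const _)
        intro z
        apply Real.exp_le_one_iff.mpr
        have : 0 ≤ τ * (z - 1) ^ 2 := by positivity
        linarith
    _ = 1 := by simp

theorem gg_ge {τ : ℝ} : 1 - τ / 3 ≤ gg τ := by
  unfold gg
  have : 1 - τ / 3 = ∫ z, (1 - τ * (z - 1) ^ 2) ∂nu := by
    rw [integral_sub (integrable_const _) (integrable_nu (by fun_prop)), integral_const_mul, nu_two]
    simp
    ring
  rw [this]
  apply integral_mono (integrable_nu (by fun_prop)) (integrable_nu (by fun_prop))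
  intro z
  have := Real.add_one_le_exp (-(τ * (z - 1) ^ 2))
  show 1 - τ * (z - 1) ^ 2 ≤ _
  linarith

theorem gg_lower {τ τ' : ℝ} (h0 : 0 ≤ τ') (h1 : τ' ≤ τ) (h2 : τ ≤ 1) :
    gg τ * (1 + (τ - τ') * (1 - τ) / 3) ≤ gg τ' := by
  have hstep : gg τ + (τ - τ') * (1 - τ) / 3 ≤ gg τ' := by
    have e : gg τ + (τ - τ') * (1 - τ) / 3 =
        ∫ z, (Real.exp (-(τ * (z - 1) ^ 2)) + (τ - τ') * (1 - τ) * (z - 1) ^ 2) ∂nu := by
      rw [integral_add (integrable_nu (by fun_prop)) (integrable_nu (by fun_prop)),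
        integral_const_mul, nu_two]
      unfold gg
      ring
    rw [e]
    unfold gg
    apply integral_mono_ae (integrable_nu (by fun_prop)) (integrable_nu (by fun_prop))
    filter_upwards [ae_mem_nu] with z hz
    have hs1 : (z - 1) ^ 2 ≤ 1 := by nlinarith [hz.1, hz.2]
    have hs0 : 0 ≤ (z - 1) ^ 2 := sq_nonneg _
    set s := (z - 1) ^ 2
    have e1 : Real.exp (-(τ' * s)) = Real.exp (-(τ * s)) * Real.exp ((τ - τ') * s) := by
      rw [← Real.exp_add]; congr 1; ring
    have e2 : (τ - τ') * s + 1 ≤ Real.exp ((τ - τ') * s) := Real.add_one_le_exp _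
    have e3 : 1 - τ ≤ Real.exp (-(τ * s)) := by
      have := Real.add_one_le_exp (-(τ * s))
      nlinarith
    rw [e1]
    have hE := Real.exp_pos (-(τ * s))
    have : 0 ≤ (τ - τ') * s := mul_nonneg (by linarith) hs0
    calc Real.exp (-(τ * s)) + (τ - τ') * (1 - τ) * s
        = Real.exp (-(τ * s)) + ((τ - τ') * s) * (1 - τ) := by ring
      _ ≤ Real.exp (-(τ * s)) + ((τ - τ') * s) * Real.exp (-(τ * s)) := by gcongr
      _ = Real.exp (-(τ * s)) * ((τ - τ') * s + 1) := by ring
      _ ≤ Real.exp (-(τ * s)) * Real.exp ((τ - τ') * s) := by gcongr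
  have h3 : 0 ≤ (τ - τ') * (1 - τ) / 3 := by
    apply div_nonneg (mul_nonneg (by linarith) (by linarith)) (by norm_num)
  have h4 := gg_le_one (h0.trans h1)
  nlinarith

theorem gg_upper {τ τ' : ℝ} (h0 : 0 ≤ τ') (h1 : τ' ≤ τ) (h2 : τ ≤ 1) :
    gg τ' ≤ gg τ * Real.exp (((τ - τ') / 3 + (τ - τ') ^ 2) * (1 + τ)) := by
  have hstep : gg τ' ≤ gg τ + ((τ - τ') / 3 + (τ - τ') ^ 2) := by
    have e : gg τ + ((τ - τ') / 3 + (τ - τ') ^ 2) =
        ∫ z, (Real.exp (-(τ * (z - 1) ^ 2)) + ((τ - τ') * (z - 1) ^ 2 + (τ - τ') ^ 2)) ∂nu := by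
      rw [integral_add (integrable_nu (by fun_prop)) (integrable_nu (by fun_prop)),
        integral_add (integrable_nu (by fun_prop)) (integrable_nu (by fun_prop)),
        integral_const_mul, nu_two]
      unfold gg
      simp
      ring
    rw [e]
    unfold gg
    apply integral_mono_ae (integrable_nu (by fun_prop)) (integrable_nu (by fun_prop))
    filter_upwards [ae_mem_nu] with z hz
    have hs1 : (z - 1) ^ 2 ≤ 1 := by nlinarith [hz.1, hz.2]
    have hs0 : 0 ≤ (z - 1) ^ 2 := sq_nonneg _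
    set s := (z - 1) ^ 2
    have e1 : Real.exp (-(τ' * s)) = Real.exp (-(τ * s)) * Real.exp ((τ - τ') * s) := by
      rw [← Real.exp_add]; congr 1; ring
    have hy0 : 0 ≤ (τ - τ') * s := mul_nonneg (by linarith) hs0
    have hy1 : (τ - τ') * s ≤ 1 := by nlinarith
    have e2 : Real.exp ((τ - τ') * s) ≤ 1 + (τ - τ') * s + ((τ - τ') * s) ^ 2 := by
      have := Real.abs_exp_sub_one_sub_id_le (x := (τ - τ') * s) (by rw [abs_of_nonneg hy0]; exact hy1)
      have := (abs_le.mp this).2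
      linarith
    have hE := Real.exp_pos (-(τ * s))
    have hE1 : Real.exp (-(τ * s)) ≤ 1 := Real.exp_le_one_iff.mpr (by nlinarith)
    have e4 : ((τ - τ') * s) ^ 2 ≤ (τ - τ') ^ 2 := by
      rw [mul_pow]
      have : s ^ 2 ≤ 1 := by nlinarith
      nlinarith [sq_nonneg (τ - τ')]
    rw [e1]
    calc Real.exp (-(τ * s)) * Real.exp ((τ - τ') * s)
        ≤ Real.exp (-(τ * s)) * (1 + (τ - τ') * s + ((τ - τ') * s) ^ 2) := by gcongr
      _ = Real.exp (-(τ * s)) + Real.exp (-(τ * s)) * ((τ - τ') * s + ((τ - τ') * s) ^ 2) := by ring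
      _ ≤ Real.exp (-(τ * s)) + 1 * ((τ - τ') * s + ((τ - τ') * s) ^ 2) := by gcongr
      _ ≤ Real.exp (-(τ * s)) + ((τ - τ') * s + (τ - τ') ^ 2) := by linarith
  have hτ0 : 0 ≤ τ := h0.trans h1
  set q := (τ - τ') / 3 + (τ - τ') ^ 2 with hq
  have hq0 : 0 ≤ q := by
    have : 0 ≤ τ - τ' := by linarith
    positivity
  have hg := gg_ge (τ := τ)
  have hg0 : 0 < gg τ := by linarith
  have h5 : q ≤ gg τ * (q * (1 + τ)) := by
    have : 1 ≤ gg τ * (1 + τ) := by nlinarith
    nlinarith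
  have h6 : q * (1 + τ) + 1 ≤ Real.exp (q * (1 + τ)) := Real.add_one_le_exp _
  calc gg τ' ≤ gg τ + q := hstep
    _ ≤ gg τ + gg τ * (q * (1 + τ)) := by linarith
    _ = gg τ * (q * (1 + τ) + 1) := by ring
    _ ≤ gg τ * Real.exp (q * (1 + τ)) := by gcongr

theorem exp_le_one_add {s : ℝ} (h0 : 0 ≤ s) (h1 : s ≤ 1) : Real.exp (s - s ^ 2) ≤ 1 + s := by
  have h2 : |s - s ^ 2| ≤ 1 := by
    rw [abs_le]; constructor <;> nlinarith
  have := (abs_le.mp (Real.abs_exp_sub_one_sub_id_le h2)).2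
  nlinarith [sq_nonneg s, mul_nonneg h0 h0, mul_nonneg (mul_nonneg h0 h0) h0]

end Pool.Agent.helper96
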