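import Mathlib
import Pool.Agent.helper96.Build3

open MeasureTheory Set
open scoped ENNReal NNReal Pointwise Gradient InnerProductSpace

namespace Pool.Agent.helper96

section tilt

variable {n : ℕ} {L a β α κ m : ℝ}

theorem Phi_norm_sq (q : ℝ × (Fin n → ℝ)) :
    ‖Phi n a α κ m q‖ ^ 2 = (α * (q.1 - m)) ^ 2 +
      ∑ i, (κ * (1 - a * q.1)) ^ 2 * (q.2 i - 1) ^ 2 := by
  rw [EuclideanSpace.norm_sq_eq, Fin.sum_univ_succ]
  simp only [Phi, Fin.cons_zero, Fin.cons_succ, Real.norm_eq_abs, sq_abs]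
  congr 1
  apply Finset.sum_congr rfl
  intro i _
  ring

/-- the marginal weight of the tilted measure -/
noncomputable def WW (n : ℕ) (a α κ m h : ℝ) (x : ℝ) : ℝ :=
  Real.exp (-((α * (x - m)) ^ 2 / (2 * h))) * gg ((κ * (1 - a * x)) ^ 2 / (2 * h)) ^ n

theorem continuous_gg : Continuous gg := by
  have h : ∀ τ, gg τ = (∫ z in (0)..2, Real.exp (-(τ * (z - 1) ^ 2))) / 2 := fun τ => integral_nu _
  have h2 : gg = fun τ => (∫ z in (0)..2, Real.exp (-(τ * (z - 1) ^ 2))) / 2 := funext h
  rw [h2]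
  apply Continuous.div_const
  apply intervalIntegral.continuous_parametric_intervalIntegral_of_continuous'
  fun_prop

theorem continuous_WW {h : ℝ} : Continuous (WW n a α κ m h) := by
  unfold WW
  have := continuous_gg
  fun_prop

theorem integral_exp_piM (hL : 0 < L) (ha : 0 ≤ a) (haL : a * L < 1) (h : ℝ) {F : ℝ → ℝ}
    (hF : Continuous F) :
    ∫ w, Real.exp (-‖w‖ ^ 2 / (2 * h)) * F (w 0) ∂(piM n L a β α κ m) =
      (∫ x in (0)..L, pw n a β x * (WW n a α κ m h x * F (α * (x - m)))) /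
        ∫ y in (0)..L, pw n a β y := by
  have hprobρ := isProbabilityMeasure_rho hL continuous_pw (pw_pos (n := n) (β := β) ha haL)
  have hprob := isProb_Pmeas (n := n) (β := β) hL ha haL
  have hΦc : Continuous (Phi n a α κ m) := continuous_Phi
  have hcont : Continuous fun w : EuclideanSpace ℝ (Fin (n + 1)) =>
      Real.exp (-‖w‖ ^ 2 / (2 * h)) * F (w 0) := by fun_prop
  have hint : Integrable (fun q => Real.exp (-‖Phi n a α κ m q‖ ^ 2 / (2 * h)) *
      F ((Phi n a α κ m q) 0)) (Pmeas n L a β) :=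
    integrable_of_compact isCompact_box (Pmeas_ae hL ha haL) (hcont.comp hΦc)
  unfold piM
  rw [integral_map hΦc.measurable.aemeasurable hcont.aestronglyMeasurable]
  unfold Pmeas at hint ⊢
  rw [integral_prod _ hint, ← integral_rho hL continuous_pw (pw_pos (n := n) (β := β) ha haL)]
  congr 1
  ext x
  have e1 : ∀ z : Fin n → ℝ, Real.exp (-‖Phi n a α κ m (x, z)‖ ^ 2 / (2 * h)) *
      F ((Phi n a α κ m (x, z)) 0) =
      (Real.exp (-((α * (x - m)) ^ 2 / (2 * h))) * F (α * (x - m))) *
        ∏ i, Real.exp (-((κ * (1 - a * x)) ^ 2 / (2 * h) * (z i - 1) ^ 2)) := by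
    intro z
    have e2 : (Phi n a α κ m (x, z)) 0 = α * (x - m) := by simp [Phi]
    rw [e2, Phi_norm_sq, ← Real.exp_sum]
    have e3 : Real.exp (-((α * (x - m)) ^ 2 + ∑ i, (κ * (1 - a * x)) ^ 2 * (z i - 1) ^ 2) / (2 * h))
        = Real.exp (-((α * (x - m)) ^ 2 / (2 * h))) *
          Real.exp (∑ i, -((κ * (1 - a * x)) ^ 2 / (2 * h) * (z i - 1) ^ 2)) := by
      rw [← Real.exp_add]
      congr 1
      rw [Finset.sum_neg_distrib, neg_div, add_div, Finset.sum_div]
      have : ∀ i, (κ * (1 - a * x)) ^ 2 * (z i - 1) ^ 2 / (2 * h) =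
        (κ * (1 - a * x)) ^ 2 / (2 * h) * (z i - 1) ^ 2 := fun i => by ring
      simp only [this]
      ring
    simp only [e3]
    ring
  simp only [e1]
  rw [integral_const_mul, integral_fintype_prod_eq_pow (μ := nu)
    (fun t : ℝ => Real.exp (-((κ * (1 - a * x)) ^ 2 / (2 * h) * (t - 1) ^ 2)))]
  simp only [Fintype.card_fin, WW, gg]
  ring

/-- lower bound for quadratic functionals of the tilted measure -/
theorem tilt_lower (hL : 0 < L) (ha : 0 ≤ a) (haL : a * L < 1) (h : ℝ) {r0 K : ℝ}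
    (hr0 : 0 < r0) (hK : 0 < K)
    (hlow : ∀ x ∈ Icc 0 L, r0 ≤ pw n a β x * WW n a α κ m h x)
    (hup : ∀ x ∈ Icc 0 L, pw n a β x * WW n a α κ m h x ≤ K * r0) (A : ℝ) :
    α ^ 2 * L ^ 2 / (12 * K) ≤
      ∫ w, (w 0 + α * m - A) ^ 2 ∂((piM n L a β α κ m).tilted (fun w => -‖w‖ ^ 2 / (2 * h))) := by
  have hprob := isProb_piM (n := n) (β := β) (α := α) (κ := κ) (m := m) hL ha haL
  have hZ := Z_pos hL continuous_pw (pw_pos (n := n) (β := β) ha haL)
  rw [integral_tilted]
  have e1 : ∀ w : EuclideanSpace ℝ (Fin (n + 1)),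
      (Real.exp (-‖w‖ ^ 2 / (2 * h)) / ∫ x, Real.exp (-‖x‖ ^ 2 / (2 * h)) ∂(piM n L a β α κ m)) •
        (w 0 + α * m - A) ^ 2 =
      (Real.exp (-‖w‖ ^ 2 / (2 * h)) * (w 0 + α * m - A) ^ 2) /
        ∫ x, Real.exp (-‖x‖ ^ 2 / (2 * h)) ∂(piM n L a β α κ m) := by
    intro w
    rw [smul_eq_mul]; ring
  simp only [e1]
  rw [integral_div]
  have i1 := integral_exp_piM (n := n) (β := β) (α := α) (κ := κ) (m := m) hL ha haL h
    (F := fun _ => 1) continuous_const
  have i2 := integral_exp_piM (n := n) (β := β) (α := α) (κ := κ) (m := m) hL ha haL h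
    (F := fun t => (t + α * m - A) ^ 2) (by fun_prop)
  simp only [mul_one] at i1
  rw [i1, i2]
  have hWc : Continuous (WW n a α κ m h) := continuous_WW
  set Z := ∫ y in (0)..L, pw n a β y with hZdef
  set p : ℝ → ℝ := pw n a β with hp
  set W : ℝ → ℝ := WW n a α κ m h with hW
  have hpc : Continuous p := continuous_pw
  have hI1 : r0 * (α ^ 2 * L ^ 3 / 12) ≤
      ∫ x in (0)..L, p x * (W x * (α * (x - m) + α * m - A) ^ 2) := by
    have e2 : ∫ x in (0)..L, (α * x - A) ^ 2 = α ^ 2 * L ^ 3 / 12 + L * (A - α * L / 2) ^ 2 := by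
      have : ∀ x : ℝ, (α * x - A) ^ 2 = α ^ 2 * x ^ 2 - 2 * α * A * x + A ^ 2 := fun x => by ring
      simp only [this]
      rw [intervalIntegral.integral_add, intervalIntegral.integral_sub,
        intervalIntegral.integral_const_mul, intervalIntegral.integral_const_mul, integral_pow,
        integral_id]
      · simp
        ring
      all_goals apply Continuous.intervalIntegrable; fun_prop
    calc r0 * (α ^ 2 * L ^ 3 / 12) ≤ r0 * ∫ x in (0)..L, (α * x - A) ^ 2 := by
          rw [e2]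
          gcongr
          nlinarith [mul_nonneg hL.le (sq_nonneg (A - α * L / 2))]
      _ = ∫ x in (0)..L, r0 * (α * x - A) ^ 2 := by rw [intervalIntegral.integral_const_mul]
      _ ≤ _ := by
          apply intervalIntegral.integral_mono_on hL.le
          · apply Continuous.intervalIntegrable; fun_prop
          · apply Continuous.intervalIntegrable; fun_prop
          · intro x hx
            have h1 := hlow x hx
            have e3 : α * (x - m) + α * m - A = α * x - A := by ring
            rw [e3, ← mul_assoc]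
            gcongr
  have hI2 : ∫ x in (0)..L, p x * W x ≤ K * r0 * L := by
    calc ∫ x in (0)..L, p x * W x ≤ ∫ _x in (0)..L, K * r0 := by
          apply intervalIntegral.integral_mono_on hL.le
          · apply Continuous.intervalIntegrable; fun_prop
          · apply Continuous.intervalIntegrable; fun_prop
          · exact hup
      _ = K * r0 * L := by simp; ring
  have hI3 : 0 < ∫ x in (0)..L, p x * W x := by
    apply intervalIntegral.intervalIntegral_pos_of_pos_on
    · apply Continuous.intervalIntegrable; fun_prop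
    · intro x hx
      exact hr0.trans_le (hlow x (Ioo_subset_Icc_self hx))
    · exact hL
  rw [div_div_div_cancel_right₀ hZ.ne', div_le_div_iff₀ (by positivity) hI3]
  calc α ^ 2 * L ^ 2 * ∫ x in (0)..L, p x * W x ≤ α ^ 2 * L ^ 2 * (K * r0 * L) := by gcongr
    _ = (r0 * (α ^ 2 * L ^ 3 / 12)) * (12 * K) := by ring
    _ ≤ _ := by gcongr

end tilt

end Pool.Agent.helper96
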