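import Mathlib
import Pool.Agent.helper96.Build4

open MeasureTheory Set
open scoped ENNReal NNReal Pointwise Gradient InnerProductSpace

namespace Pool.Agent.helper96

section params

variable {L : ℝ} {N : ℕ}

/-- slope parameter -/
noncomputable def aa (L : ℝ) (N : ℕ) : ℝ := 1 / (2 * N * L)

/-- exponential parameter -/
noncomputable def bb (L : ℝ) (N : ℕ) : ℝ := N / L - 1

/-- the weight with the chosen parameters -/
noncomputable def pq (L : ℝ) (N : ℕ) : ℝ → ℝ := pw (2 * N ^ 2) (aa L N) (bb L N)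

theorem N_pos (hL : 1 ≤ L) (hN : 36 * L ^ 3 ≤ N) : (36 : ℝ) ≤ N := by
  have : 1 ≤ L ^ 3 := one_le_pow₀ hL
  linarith

theorem aa_pos (hL : 1 ≤ L) (hN : 36 * L ^ 3 ≤ N) : 0 < aa L N := by
  have := N_pos hL hN
  unfold aa; positivity

theorem aa_mul_L (hL : 1 ≤ L) (hN : 36 * L ^ 3 ≤ N) : aa L N * L = 1 / (2 * N) := by
  have := N_pos hL hN
  unfold aa; field_simp

theorem aa_L_lt (hL : 1 ≤ L) (hN : 36 * L ^ 3 ≤ N) : aa L N * L ≤ 1 / 2 := by
  have := N_pos hL hN
  rw [aa_mul_L hL hN]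
  rw [div_le_div_iff₀ (by positivity) (by norm_num)]
  linarith

theorem n_mul_aa (hL : 1 ≤ L) (hN : 36 * L ^ 3 ≤ N) :
    ((2 * N ^ 2 : ℕ) : ℝ) * aa L N = N / L := by
  have := N_pos hL hN
  unfold aa; push_cast; field_simp

theorem pq_le (hL : 1 ≤ L) (hN : 36 * L ^ 3 ≤ N) {x : ℝ} (hx : x ∈ Icc 0 L) :
    pq L N x ≤ Real.exp (-x) := by
  have ha := aa_pos hL hN
  have haL := aa_L_lt hL hN
  have hna := n_mul_aa hL hN
  have h1 : 0 ≤ 1 - aa L N * x := by nlinarith [hx.2]
  have h2 : 1 - aa L N * x ≤ Real.exp (-(aa L N * x)) := by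
    have := Real.add_one_le_exp (-(aa L N * x)); linarith
  unfold pq pw
  calc Real.exp (bb L N * x) * (1 - aa L N * x) ^ (2 * N ^ 2)
      ≤ Real.exp (bb L N * x) * (Real.exp (-(aa L N * x))) ^ (2 * N ^ 2) := by gcongr
    _ = Real.exp (-x) := by
      rw [← Real.exp_nat_mul, ← Real.exp_add]
      congr 1
      have : ((2 * N ^ 2 : ℕ) : ℝ) * -(aa L N * x) = -(((2 * N ^ 2 : ℕ) : ℝ) * aa L N) * x := by ring
      rw [this, hna, bb]
      ring

theorem pq_ge (hL : 1 ≤ L) (hN : 36 * L ^ 3 ≤ N) {x : ℝ} (hx : x ∈ Icc 0 L) :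
    1 / 2 * Real.exp (-x) ≤ pq L N x := by
  have hN0 := N_pos hL hN
  have ha := aa_pos hL hN
  have haL := aa_L_lt hL hN
  have hna := n_mul_aa hL hN
  have hax0 : 0 ≤ aa L N * x := mul_nonneg ha.le hx.1
  have haxL : aa L N * x ≤ aa L N * L := by gcongr; exact hx.2
  have h1 : 0 ≤ 1 - aa L N * x := by linarith
  have h2 : 1 - (aa L N * x) ^ 2 ≤ (1 - aa L N * x) * Real.exp (aa L N * x) := by
    have := Real.add_one_le_exp (aa L N * x)
    nlinarith
  have h3 : 1 / 2 ≤ (1 - (aa L N * x) ^ 2) ^ (2 * N ^ 2) := by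
    have hb := one_add_mul_le_pow (a := -(aa L N * x) ^ 2) (by nlinarith) (2 * N ^ 2)
    have h4 : (aa L N * x) ^ 2 ≤ (1 / (2 * N)) ^ 2 := by
      rw [← aa_mul_L hL hN]; gcongr
    have h5 : ((2 * N ^ 2 : ℕ) : ℝ) * (1 / (2 * N)) ^ 2 = 1 / 2 := by
      push_cast; field_simp
    have h6 : ((2 * N ^ 2 : ℕ) : ℝ) * (aa L N * x) ^ 2 ≤ 1 / 2 := by
      rw [← h5]; gcongr
    have h7 : (1 + -(aa L N * x) ^ 2) = 1 - (aa L N * x) ^ 2 := by ring
    rw [h7] at hb
    linarith
  have h8 : (1 - (aa L N * x) ^ 2) ^ (2 * N ^ 2) ≤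
      ((1 - aa L N * x) * Real.exp (aa L N * x)) ^ (2 * N ^ 2) := by
    apply pow_le_pow_left₀ _ h2
    nlinarith
  have h9 : pq L N x = Real.exp (-x) *
      ((1 - aa L N * x) * Real.exp (aa L N * x)) ^ (2 * N ^ 2) := by
    unfold pq pw
    rw [mul_pow, ← Real.exp_nat_mul]
    have : ((2 * N ^ 2 : ℕ) : ℝ) * (aa L N * x) = (((2 * N ^ 2 : ℕ) : ℝ) * aa L N) * x := by ring
    rw [this, hna]
    have e : Real.exp (bb L N * x) = Real.exp (-x) * Real.exp (N / L * x) := by
      rw [← Real.exp_add]; congr 1; rw [bb]; ring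
    rw [e]
    ring
  rw [h9]
  have := Real.exp_pos (-x)
  nlinarith

theorem continuous_pq : Continuous (pq L N) := continuous_pw

theorem pq_pos (hL : 1 ≤ L) (hN : 36 * L ^ 3 ≤ N) : ∀ x ∈ Icc 0 L, 0 < pq L N x :=
  fun x hx => lt_of_lt_of_le (by positivity) (pq_ge hL hN hx)

/-- normalising constant -/
noncomputable def ZZ (L : ℝ) (N : ℕ) : ℝ := ∫ y in (0)..L, pq L N y

theorem ZZ_pos (hL : 1 ≤ L) (hN : 36 * L ^ 3 ≤ N) : 0 < ZZ L N :=
  Z_pos (by linarith) continuous_pq (pq_pos hL hN)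

theorem ZZ_le (hL : 1 ≤ L) (hN : 36 * L ^ 3 ≤ N) : ZZ L N ≤ 1 := by
  calc ZZ L N ≤ ∫ y in (0)..L, Real.exp (-y) := by
        apply intervalIntegral.integral_mono_on (by linarith)
          (continuous_pq.intervalIntegrable _ _)
        · apply Continuous.intervalIntegrable; fun_prop
        · intro x hx; exact pq_le hL hN hx
    _ ≤ 1 := by
        rw [intervalIntegral.integral_comp_neg (fun x => Real.exp x), integral_exp]
        simp only [neg_zero, Real.exp_zero]
        linarith [Real.exp_pos (-L)]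

theorem exp_neg_one_ge : (1 : ℝ) / 3 ≤ Real.exp (-1) := by
  rw [Real.exp_neg, ← one_div]
  apply one_div_le_one_div_of_le (Real.exp_pos 1)
  have := Real.exp_one_lt_d9
  linarith

theorem pq_ge_unit (hL : 1 ≤ L) (hN : 36 * L ^ 3 ≤ N) {x : ℝ} (hx : x ∈ Icc (0 : ℝ) 1) :
    1 / 6 ≤ pq L N x := by
  have h1 := pq_ge hL hN (x := x) ⟨hx.1, hx.2.trans hL⟩
  have h2 : Real.exp (-1) ≤ Real.exp (-x) := Real.exp_le_exp.mpr (by linarith [hx.2])
  have h3 := exp_neg_one_ge
  linarith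

theorem int_ge_unit (hL : 1 ≤ L) (hN : 36 * L ^ 3 ≤ N) {F : ℝ → ℝ} (hF : Continuous F)
    (hF0 : ∀ x, 0 ≤ F x) : 1 / 6 * ∫ x in (0)..1, F x ≤ ∫ x in (0)..L, pq L N x * F x := by
  have hc := continuous_pq (L := L) (N := N)
  calc 1 / 6 * ∫ x in (0)..1, F x = ∫ x in (0)..1, 1 / 6 * F x := by
        rw [intervalIntegral.integral_const_mul]
    _ ≤ ∫ x in (0)..1, pq L N x * F x := by
        apply intervalIntegral.integral_mono_on (by norm_num)
        · apply Continuous.intervalIntegrable; fun_prop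
        · apply Continuous.intervalIntegrable; fun_prop
        · intro x hx
          exact mul_le_mul_of_nonneg_right (pq_ge_unit hL hN hx) (hF0 x)
    _ ≤ ∫ x in (0)..L, pq L N x * F x := by
        apply intervalIntegral.integral_mono_interval le_rfl (by norm_num) hL
        · refine (ae_restrict_iff' measurableSet_Ioc).mpr (Filter.Eventually.of_forall fun x hx => ?_)
          exact mul_nonneg (pq_pos hL hN x ⟨hx.1.le, hx.2⟩).le (hF0 x)
        · apply Continuous.intervalIntegrable; fun_prop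

theorem ZZ_ge (hL : 1 ≤ L) (hN : 36 * L ^ 3 ≤ N) : 1 / 6 ≤ ZZ L N := by
  have := int_ge_unit hL hN (F := fun _ => 1) continuous_const (fun _ => zero_le_one)
  simpa [ZZ] using this

/-- the one-dimensional law -/
noncomputable def rq (L : ℝ) (N : ℕ) : Measure ℝ := rho L (pq L N)

theorem integral_rq (hL : 1 ≤ L) (hN : 36 * L ^ 3 ≤ N) (F : ℝ → ℝ) :
    ∫ x, F x ∂(rq L N) = (∫ x in (0)..L, pq L N x * F x) / ZZ L N :=
  integral_rho (by linarith) continuous_pq (pq_pos hL hN) F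

theorem isProb_rq (hL : 1 ≤ L) (hN : 36 * L ^ 3 ≤ N) : IsProbabilityMeasure (rq L N) :=
  isProbabilityMeasure_rho (by linarith) continuous_pq (pq_pos hL hN)

theorem integrable_rq (hL : 1 ≤ L) (hN : 36 * L ^ 3 ≤ N) {F : ℝ → ℝ} (hF : Continuous F) :
    Integrable F (rq L N) :=
  integrable_rho (by linarith) continuous_pq (pq_pos hL hN) hF

theorem ae_rq : ∀ᵐ x ∂(rq L N), x ∈ Icc 0 L := ae_mem_rho

/-- mean -/
noncomputable def mm (L : ℝ) (N : ℕ) : ℝ := ∫ x, x ∂(rq L N)

/-- variance -/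
noncomputable def vv (L : ℝ) (N : ℕ) : ℝ := ∫ x, (x - mm L N) ^ 2 ∂(rq L N)

/-- second moment of the radius -/
noncomputable def ww (L : ℝ) (N : ℕ) : ℝ := ∫ x, (1 - aa L N * x) ^ 2 ∂(rq L N)

theorem mm_mem (hL : 1 ≤ L) (hN : 36 * L ^ 3 ≤ N) : mm L N ∈ Icc 0 L := by
  have := isProb_rq hL hN
  constructor
  · apply integral_nonneg_of_ae
    filter_upwards [ae_rq] with x hx using hx.1
  · calc mm L N ≤ ∫ _x, L ∂(rq L N) := by
          apply integral_mono_ae (integrable_rq hL hN continuous_id) (integrable_const _)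
          filter_upwards [ae_rq] with x hx using hx.2
      _ = L := by simp

theorem vv_ge (hL : 1 ≤ L) (hN : 36 * L ^ 3 ≤ N) : 1 / 72 ≤ vv L N := by
  unfold vv
  rw [integral_rq hL hN]
  have h1 := int_ge_unit hL hN (F := fun x => (x - mm L N) ^ 2) (by fun_prop) (fun _ => sq_nonneg _)
  have h2 : (1 : ℝ) / 12 ≤ ∫ x in (0)..1, (x - mm L N) ^ 2 := by
    rw [intervalIntegral.integral_comp_sub_right (fun x => x ^ 2), integral_pow]
    norm_num
    nlinarith [sq_nonneg (mm L N - 1 / 2)]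
  have h3 := ZZ_le hL hN
  have h4 := ZZ_pos hL hN
  rw [le_div_iff₀ h4]
  linarith

theorem int_sq_exp (L : ℝ) : ∫ x in (0)..L, x ^ 2 * Real.exp (-x) =
    2 - (L ^ 2 + 2 * L + 2) * Real.exp (-L) := by
  have := intervalIntegral.integral_eq_sub_of_hasDerivAt
    (f := fun x => -(x ^ 2 + 2 * x + 2) * Real.exp (-x))
    (f' := fun x => x ^ 2 * Real.exp (-x)) (a := 0) (b := L) (fun x _ => by
      have h1 : HasDerivAt (fun x : ℝ => -(x ^ 2 + 2 * x + 2)) (-(2 * x + 2)) x := by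
        have h2 := ((hasDerivAt_pow 2 x).add ((hasDerivAt_id' x).const_mul 2)).add_const 2
        have h3 := h2.neg
        refine (h3.congr_deriv ?_)
        norm_num
      have h2 : HasDerivAt (fun s => Real.exp (-s)) (Real.exp (-x) * (-1)) x :=
        (hasDerivAt_neg x).exp
      exact (h1.mul h2).congr_deriv (by ring)) (by
      apply Continuous.intervalIntegrable; fun_prop)
  rw [this]
  simp
  ring

theorem vv_le (hL : 1 ≤ L) (hN : 36 * L ^ 3 ≤ N) : vv L N ≤ 12 := by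
  have := isProb_rq hL hN
  have e : vv L N = ∫ x, x ^ 2 ∂(rq L N) - mm L N ^ 2 := by
    have e1 : vv L N = ∫ x, (x ^ 2 - 2 * mm L N * x + mm L N ^ 2) ∂(rq L N) := by
      unfold vv
      congr 1
      ext x
      ring
    rw [e1, integral_add, integral_sub, integral_const_mul]
    · simp
      have : ∫ x, x ∂(rq L N) = mm L N := rfl
      rw [this]
      ring
    all_goals exact integrable_rq hL hN (by fun_prop)
  have h1 : ∫ x, x ^ 2 ∂(rq L N) ≤ 12 := by
    rw [integral_rq hL hN]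
    have h4 := ZZ_pos hL hN
    rw [div_le_iff₀ h4]
    have hc := continuous_pq (L := L) (N := N)
    have h2 : ∫ x in (0)..L, pq L N x * x ^ 2 ≤ ∫ x in (0)..L, x ^ 2 * Real.exp (-x) := by
      apply intervalIntegral.integral_mono_on (by linarith)
      · apply Continuous.intervalIntegrable; fun_prop
      · apply Continuous.intervalIntegrable; fun_prop
      · intro x hx
        have := pq_le hL hN hx
        nlinarith [sq_nonneg x]
    rw [int_sq_exp] at h2
    have h5 := ZZ_ge hL hN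
    have h6 : 0 ≤ (L ^ 2 + 2 * L + 2) * Real.exp (-L) := by positivity
    linarith
  rw [e]
  nlinarith [sq_nonneg (mm L N)]

theorem ww_le (hL : 1 ≤ L) (hN : 36 * L ^ 3 ≤ N) : ww L N ≤ 1 := by
  have := isProb_rq hL hN
  have ha := aa_pos hL hN
  have haL := aa_L_lt hL hN
  calc ww L N ≤ ∫ _x, (1 : ℝ) ∂(rq L N) := by
        apply integral_mono_ae (integrable_rq hL hN (by fun_prop)) (integrable_const _)
        filter_upwards [ae_rq] with x hx
        have h1 : 0 ≤ aa L N * x := mul_nonneg ha.le hx.1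
        have h2 : aa L N * x ≤ aa L N * L := by gcongr; exact hx.2
        nlinarith
    _ = 1 := by simp

theorem ww_ge (hL : 1 ≤ L) (hN : 36 * L ^ 3 ≤ N) : 1 / 4 ≤ ww L N := by
  have := isProb_rq hL hN
  have ha := aa_pos hL hN
  have haL := aa_L_lt hL hN
  calc (1 : ℝ) / 4 = ∫ _x, (1 / 4 : ℝ) ∂(rq L N) := by simp
    _ ≤ ww L N := by
        apply integral_mono_ae (integrable_const _) (integrable_rq hL hN (by fun_prop))
        filter_upwards [ae_rq] with x hx
        have h1 : 0 ≤ aa L N * x := mul_nonneg ha.le hx.1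
        have h2 : aa L N * x ≤ aa L N * L := by gcongr; exact hx.2
        nlinarith

end params

end Pool.Agent.helper96
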