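import Mathlib
import Pool.Agent.helper96.Build5

open MeasureTheory Set
open scoped ENNReal NNReal Pointwise Gradient InnerProductSpace

namespace Pool.Agent.helper96

section ratio

variable {L : ℝ} {N : ℕ}

/-- maximal tilt parameter -/
noncomputable def TT (L : ℝ) (N : ℕ) : ℝ := 3 * L / (2 * N)

theorem TT_bounds (hL : 1 ≤ L) (hN : 36 * L ^ 3 ≤ N) :
    0 < TT L N ∧ TT L N ≤ 1 / 24 ∧ L * TT L N ≤ 1 / 24 := by
  have hN0 := N_pos hL hN
  have hL2 : L ≤ L ^ 2 := by nlinarith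
  have hL3 : L ^ 2 ≤ L ^ 3 := by nlinarith [sq_nonneg L]
  refine ⟨by unfold TT; positivity, ?_, ?_⟩
  · unfold TT
    rw [div_le_div_iff₀ (by positivity) (by norm_num)]
    linarith
  · unfold TT
    rw [mul_div_assoc', div_le_div_iff₀ (by positivity) (by norm_num)]
    nlinarith

theorem numeric (hL : 1 ≤ L) (hN : 36 * L ^ 3 ≤ N) :
    36 * L ^ 2 ≤ N ∧ 36 * L ≤ N ∧ 2592 * L ^ 2 ≤ 2 * (N : ℝ) ^ 2 := by
  have h1 : L ≤ L ^ 2 := by nlinarith
  have h2 : L ^ 2 ≤ L ^ 3 := by nlinarith [sq_nonneg L]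
  have h3 : 36 * L ^ 2 ≤ N := by linarith
  refine ⟨h3, by linarith, ?_⟩
  have h4 : (36 : ℝ) ≤ N := N_pos hL hN
  nlinarith

/-- the key exponent -/
theorem key_exponent (hL : 1 ≤ L) (hN : 36 * L ^ 3 ≤ N) (x : ℝ) :
    ((2 * N ^ 2 : ℕ) : ℝ) * ((TT L N - TT L N * (1 - aa L N * x) ^ 2) / 3) =
      x - aa L N * x ^ 2 / 2 := by
  have hN0 := N_pos hL hN
  have hL0 : 0 < L := by linarith
  have hNne : (N : ℝ) ≠ 0 := by positivity
  unfold TT aa
  push_cast
  field_simp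
  ring

theorem ratio_lower (hL : 1 ≤ L) (hN : 36 * L ^ 3 ≤ N) {x : ℝ} (hx : x ∈ Icc 0 L) :
    gg (TT L N) ^ (2 * N ^ 2) * Real.exp (x - 1) ≤
      gg (TT L N * (1 - aa L N * x) ^ 2) ^ (2 * N ^ 2) := by
  have hN0 := N_pos hL hN
  have ha := aa_pos hL hN
  have haL := aa_L_lt hL hN
  have haL' := aa_mul_L hL hN
  obtain ⟨hT0, hT1, hT2⟩ := TT_bounds hL hN
  obtain ⟨hn1', hn2', hn3'⟩ := numeric hL hN
  have hkey := key_exponent hL hN x
  have hax0 : 0 ≤ aa L N * x := mul_nonneg ha.le hx.1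
  have haxL : aa L N * x ≤ aa L N * L := by gcongr; exact hx.2
  set T := TT L N with hT
  set a := aa L N with haa
  set n : ℕ := 2 * N ^ 2 with hn
  have hnR : (n : ℝ) = 2 * N ^ 2 := by rw [hn]; push_cast; ring
  have hn1 : (1 : ℝ) ≤ n := by
    rw [hnR]
    have : 1 ≤ L ^ 2 := one_le_pow₀ hL
    linarith
  set τ := T * (1 - a * x) ^ 2 with hτ
  have hsq : (1 - a * x) ^ 2 ≤ 1 := by nlinarith
  have hτ0 : 0 ≤ τ := by positivity
  have hτT : τ ≤ T := by nlinarith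
  have hlow := gg_lower hτ0 hτT (by linarith : T ≤ 1)
  set s := (T - τ) * (1 - T) / 3 with hs
  have hns : (n : ℝ) * s = (x - a * x ^ 2 / 2) * (1 - T) := by
    rw [hs, ← hkey]; ring
  have hs0 : 0 ≤ s := by
    rw [hs]; apply div_nonneg (mul_nonneg (by linarith) (by linarith)) (by norm_num)
  have hs1 : s ≤ 1 := by
    rw [hs]; nlinarith
  have hgT : 0 < gg T := by
    have := gg_ge (τ := T); linarith
  have hexp := exp_le_one_add hs0 hs1
  have hmul : (n : ℝ) * (s - s ^ 2) ≥ x - 1 := by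
    have hxx : x ≤ L := hx.2
    have hx0 : 0 ≤ x := hx.1
    have h1 : a * x ^ 2 / 2 ≤ 1 / 100 := by
      have : a * x ^ 2 ≤ 1 / (2 * N) * L := by
        calc a * x ^ 2 = (a * x) * x := by ring
          _ ≤ (a * L) * L := by gcongr
          _ = 1 / (2 * N) * L := by rw [haL']
      have h2 : 1 / (2 * N) * L ≤ 1 / 72 := by
        rw [one_div_mul_eq_div, div_le_div_iff₀ (by positivity) (by norm_num)]
        linarith
      linarith
    have h3 : (n : ℝ) * s ≤ x := by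
      rw [hns]
      have q1 : 0 ≤ a * x ^ 2 / 2 := by positivity
      have q2 : x - a * x ^ 2 / 2 ≤ x := by linarith
      have q4 : 0 ≤ x - a * x ^ 2 / 2 := by
        have : a * x ^ 2 / 2 = x * (a * x / 2) := by ring
        rw [this]
        have : x * (a * x / 2) ≤ x * 1 := by
          gcongr
          linarith
        linarith
      calc (x - a * x ^ 2 / 2) * (1 - T) ≤ (x - a * x ^ 2 / 2) * 1 := by
            gcongr
            linarith
        _ ≤ x := by linarith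
    have h3' : 0 ≤ (n : ℝ) * s := by positivity
    have h4 : (n : ℝ) * s ^ 2 ≤ 1 / 100 := by
      have h5 : (n : ℝ) * s ^ 2 = ((n : ℝ) * s) ^ 2 / n := by field_simp
      rw [h5, div_le_div_iff₀ (by linarith) (by norm_num)]
      have h6 : ((n : ℝ) * s) ^ 2 ≤ L ^ 2 := by
        apply pow_le_pow_left₀ h3'; linarith
      have h7 : L ^ 2 * 100 ≤ 1 * (n : ℝ) := by
        rw [hnR]
        have : 0 ≤ L ^ 2 := sq_nonneg L
        linarith
      linarith
    have h8 : (n : ℝ) * s ≥ x - 1 / 100 - 1 / 24 := by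
      rw [hns]
      have q1 : x * T ≤ L * T := by gcongr
      have q2 : 0 ≤ a * x ^ 2 / 2 * T := by positivity
      have q3 : (x - a * x ^ 2 / 2) * (1 - T) = x - a * x ^ 2 / 2 - x * T + a * x ^ 2 / 2 * T := by
        ring
      linarith
    have : (n : ℝ) * (s - s ^ 2) = (n : ℝ) * s - (n : ℝ) * s ^ 2 := by ring
    rw [this]
    linarith
  calc gg T ^ n * Real.exp (x - 1) ≤ gg T ^ n * Real.exp ((n : ℝ) * (s - s ^ 2)) := by
        gcongr
    _ = (gg T * Real.exp (s - s ^ 2)) ^ n := by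
        rw [mul_pow, ← Real.exp_nat_mul]
    _ ≤ (gg T * (1 + s)) ^ n := by gcongr
    _ ≤ gg τ ^ n := by gcongr

theorem ratio_upper (hL : 1 ≤ L) (hN : 36 * L ^ 3 ≤ N) {x : ℝ} (hx : x ∈ Icc 0 L) :
    gg (TT L N * (1 - aa L N * x) ^ 2) ^ (2 * N ^ 2) ≤
      gg (TT L N) ^ (2 * N ^ 2) * Real.exp (x + 1) := by
  have hN0 := N_pos hL hN
  have ha := aa_pos hL hN
  have haL := aa_L_lt hL hN
  have haL' := aa_mul_L hL hN
  obtain ⟨hT0, hT1, hT2⟩ := TT_bounds hL hN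
  obtain ⟨hn1', hn2', hn3'⟩ := numeric hL hN
  have hkey := key_exponent hL hN x
  have hax0 : 0 ≤ aa L N * x := mul_nonneg ha.le hx.1
  have haxL : aa L N * x ≤ aa L N * L := by gcongr; exact hx.2
  set T := TT L N with hT
  set a := aa L N with haa
  set n : ℕ := 2 * N ^ 2 with hn
  have hnR : (n : ℝ) = 2 * N ^ 2 := by rw [hn]; push_cast; ring
  have hn1 : (1 : ℝ) ≤ n := by
    rw [hnR]
    have : 1 ≤ L ^ 2 := one_le_pow₀ hL
    linarith
  set τ := T * (1 - a * x) ^ 2 with hτ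
  have hsq : (1 - a * x) ^ 2 ≤ 1 := by nlinarith
  have hτ0 : 0 ≤ τ := by positivity
  have hτT : τ ≤ T := by nlinarith
  have hup := gg_upper hτ0 hτT (by linarith : T ≤ 1)
  have hgT : 0 < gg T := by
    have := gg_ge (τ := T); linarith
  have hgτ : 0 < gg τ := by
    have := gg_ge (τ := τ); linarith
  set δ := T - τ with hδ
  have hδ0 : 0 ≤ δ := by linarith
  have hmul : (n : ℝ) * ((δ / 3 + δ ^ 2) * (1 + T)) ≤ x + 1 := by
    have hxx : x ≤ L := hx.2
    have hx0 : 0 ≤ x := hx.1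
    have h1 : 0 ≤ a * x ^ 2 / 2 := by positivity
    have h3 : (n : ℝ) * (δ / 3) ≤ x := by rw [hkey]; linarith
    have h3' : 0 ≤ (n : ℝ) * (δ / 3) := by positivity
    have h4 : (n : ℝ) * δ ^ 2 ≤ 1 / 4 := by
      have h5 : (n : ℝ) * δ ^ 2 = 9 * ((n : ℝ) * (δ / 3)) ^ 2 / n := by field_simp; norm_num
      rw [h5, div_le_div_iff₀ (by linarith) (by norm_num)]
      have h6 : ((n : ℝ) * (δ / 3)) ^ 2 ≤ L ^ 2 := by
        apply pow_le_pow_left₀ h3'; linarith
      have h7 : 9 * L ^ 2 * 4 ≤ 1 * (n : ℝ) := by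
        rw [hnR]
        have : 0 ≤ L ^ 2 := sq_nonneg L
        linarith
      linarith
    have h9 : (n : ℝ) * ((δ / 3 + δ ^ 2) * (1 + T)) =
        ((n : ℝ) * (δ / 3) + (n : ℝ) * δ ^ 2) * (1 + T) := by ring
    rw [h9]
    have h10 : ((n : ℝ) * (δ / 3) + (n : ℝ) * δ ^ 2) * (1 + T) ≤ (x + 1 / 4) * (1 + T) := by
      gcongr
    have h11 : x * T ≤ L * T := by gcongr
    have h12 : (x + 1 / 4) * (1 + T) = x + 1 / 4 + x * T + 1 / 4 * T := by ring
    linarith
  calc gg τ ^ n ≤ (gg T * Real.exp ((δ / 3 + δ ^ 2) * (1 + T))) ^ n := by gcongr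
    _ = gg T ^ n * Real.exp ((n : ℝ) * ((δ / 3 + δ ^ 2) * (1 + T))) := by
        rw [mul_pow, ← Real.exp_nat_mul]
    _ ≤ gg T ^ n * Real.exp (x + 1) := by gcongr

end ratio

end Pool.Agent.helper96
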