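import Mathlib
import Pool.Agent.helper96.Build6

open MeasureTheory Set
open scoped ENNReal NNReal Pointwise Gradient InnerProductSpace

namespace Pool.Agent.helper96

section final

variable {L : ℝ} {N : ℕ}

/-- scale of the first coordinate -/
noncomputable def al (L : ℝ) (N : ℕ) : ℝ := Real.sqrt (1 / vv L N)

/-- scale of the other coordinates -/
noncomputable def ka (L : ℝ) (N : ℕ) : ℝ := Real.sqrt (3 / ww L N)

/-- temperature -/
noncomputable def hh (L : ℝ) (N : ℕ) : ℝ := N / (L * ww L N)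

/-- the measure -/
noncomputable def pim (L : ℝ) (N : ℕ) : Measure (EuclideanSpace ℝ (Fin (2 * N ^ 2 + 1))) :=
  piM (2 * N ^ 2) L (aa L N) (bb L N) (al L N) (ka L N) (mm L N)

theorem al_sq (hL : 1 ≤ L) (hN : 36 * L ^ 3 ≤ N) : al L N ^ 2 = 1 / vv L N := by
  have := vv_ge hL hN
  exact Real.sq_sqrt (by positivity)

theorem ka_sq (hL : 1 ≤ L) (hN : 36 * L ^ 3 ≤ N) : ka L N ^ 2 = 3 / ww L N := by
  have := ww_ge hL hN
  exact Real.sq_sqrt (by positivity)

theorem al_bounds (hL : 1 ≤ L) (hN : 36 * L ^ 3 ≤ N) :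
    1 / 12 ≤ al L N ^ 2 ∧ al L N ^ 2 ≤ 72 := by
  rw [al_sq hL hN]
  have h1 := vv_ge hL hN
  have h2 := vv_le hL hN
  have h3 : 0 < vv L N := by linarith
  constructor
  · exact one_div_le_one_div_of_le h3 h2
  · rw [div_le_iff₀ h3]; linarith

theorem ka_bounds (hL : 1 ≤ L) (hN : 36 * L ^ 3 ≤ N) :
    3 ≤ ka L N ^ 2 ∧ ka L N ^ 2 ≤ 12 := by
  rw [ka_sq hL hN]
  have h1 := ww_ge hL hN
  have h2 := ww_le hL hN
  have h3 : 0 < ww L N := by linarith
  constructor
  · rw [le_div_iff₀ h3]; linarith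
  · rw [div_le_iff₀ h3]; linarith

theorem ka_pos (hL : 1 ≤ L) (hN : 36 * L ^ 3 ≤ N) : 0 < ka L N := by
  have := ww_ge hL hN
  exact Real.sqrt_pos.mpr (by positivity)

theorem al_pos (hL : 1 ≤ L) (hN : 36 * L ^ 3 ≤ N) : 0 < al L N := by
  have := vv_ge hL hN
  exact Real.sqrt_pos.mpr (by positivity)

theorem hh_pos (hL : 1 ≤ L) (hN : 36 * L ^ 3 ≤ N) : 0 < hh L N := by
  have := ww_ge hL hN
  have := N_pos hL hN
  unfold hh; positivity

theorem aa_L_lt_one (hL : 1 ≤ L) (hN : 36 * L ^ 3 ≤ N) : aa L N * L < 1 := by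
  have := aa_L_lt hL hN; linarith

theorem isProb_pim (hL : 1 ≤ L) (hN : 36 * L ^ 3 ≤ N) : IsProbabilityMeasure (pim L N) :=
  isProb_piM (by linarith) (aa_pos hL hN).le (aa_L_lt_one hL hN)

theorem isLogconcave_pim (hL : 1 ≤ L) (hN : 36 * L ^ 3 ≤ N) : IsLogconcave (pim L N) :=
  isLogconcave_piM (by linarith) (aa_pos hL hN).le (aa_L_lt_one hL hN) (ka_pos hL hN)

theorem compact_pim (hL : 1 ≤ L) (hN : 36 * L ^ 3 ≤ N) :
    ∃ K : Set (EuclideanSpace ℝ (Fin (2 * N ^ 2 + 1))), IsCompact K ∧ pim L N Kᶜ = 0 := by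
  refine ⟨Phi (2 * N ^ 2) (aa L N) (al L N) (ka L N) (mm L N) ''
    ((Icc 0 L) ×ˢ (Set.pi univ fun _ => Icc (0 : ℝ) 2)), isCompact_box.image continuous_Phi, ?_⟩
  have hK := (isCompact_box (n := 2 * N ^ 2) (L := L)).image
    (continuous_Phi (a := aa L N) (α := al L N) (κ := ka L N) (m := mm L N))
  unfold pim piM
  rw [Measure.map_apply continuous_Phi.measurable hK.measurableSet.compl]
  have hae := Pmeas_ae (n := 2 * N ^ 2) (β := bb L N) (by linarith : 0 < L) (aa_pos hL hN).le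
    (aa_L_lt_one hL hN)
  refine measure_mono_null ?_ (ae_iff.mp hae)
  intro q hq hq'
  exact hq (mem_image_of_mem _ hq')

theorem integral_pim {F : EuclideanSpace ℝ (Fin (2 * N ^ 2 + 1)) → ℝ} (hF : Continuous F) :
    ∫ w, F w ∂(pim L N) = ∫ q, F (Phi (2 * N ^ 2) (aa L N) (al L N) (ka L N) (mm L N) q)
      ∂((rq L N).prod (Measure.pi fun _ : Fin (2 * N ^ 2) => nu)) := by
  unfold pim piM
  rw [integral_map continuous_Phi.measurable.aemeasurable hF.aestronglyMeasurable]
  rfl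

theorem centred_pim (hL : 1 ≤ L) (hN : 36 * L ^ 3 ≤ N) (i : Fin (2 * N ^ 2 + 1)) :
    ∫ w, w i ∂(pim L N) = 0 := by
  have := isProb_rq hL hN
  rw [integral_pim (by fun_prop)]
  refine Fin.cases ?_ (fun j => ?_) i
  · have e : ∀ q : ℝ × (Fin (2 * N ^ 2) → ℝ),
        (Phi (2 * N ^ 2) (aa L N) (al L N) (ka L N) (mm L N) q) 0 =
        (al L N * (q.1 - mm L N)) * 1 := by intro q; simp [Phi]
    simp only [e]
    rw [integral_prod_mul (fun x => al L N * (x - mm L N)) (fun _ => (1 : ℝ)), integral_const_mul,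
      integral_sub (integrable_rq hL hN (by fun_prop : Continuous fun x : ℝ => x))
      (integrable_const _)]
    have : ∫ x, x ∂(rq L N) = mm L N := rfl
    rw [this]
    simp
  · have e : ∀ q : ℝ × (Fin (2 * N ^ 2) → ℝ),
        (Phi (2 * N ^ 2) (aa L N) (al L N) (ka L N) (mm L N) q) j.succ =
        (ka L N * (1 - aa L N * q.1)) * (q.2 j - 1) := by intro q; simp [Phi]
    simp only [e]
    rw [integral_prod_mul (fun x => ka L N * (1 - aa L N * x))
      (fun z : Fin (2 * N ^ 2) → ℝ => z j - 1), integral_pi_one, mul_zero]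

theorem isotropic_pim (hL : 1 ≤ L) (hN : 36 * L ^ 3 ≤ N) (i j : Fin (2 * N ^ 2 + 1)) :
    ∫ w, w i * w j ∂(pim L N) = if i = j then 1 else 0 := by
  have := isProb_rq hL hN
  rw [integral_pim (by fun_prop)]
  have e0 : ∀ q : ℝ × (Fin (2 * N ^ 2) → ℝ),
        (Phi (2 * N ^ 2) (aa L N) (al L N) (ka L N) (mm L N) q) 0 =
        al L N * (q.1 - mm L N) := by intro q; simp [Phi]
  have e1 : ∀ (k : Fin (2 * N ^ 2)) (q : ℝ × (Fin (2 * N ^ 2) → ℝ)),
        (Phi (2 * N ^ 2) (aa L N) (al L N) (ka L N) (mm L N) q) k.succ =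
        (ka L N * (1 - aa L N * q.1)) * (q.2 k - 1) := by intro k q; simp [Phi]
  have hv := vv_ge hL hN
  have hw := ww_ge hL hN
  refine Fin.cases ?_ (fun i' => ?_) i <;> refine Fin.cases ?_ (fun j' => ?_) j
  · simp only [e0]
    have e : ∀ q : ℝ × (Fin (2 * N ^ 2) → ℝ), al L N * (q.1 - mm L N) * (al L N * (q.1 - mm L N)) =
        (al L N ^ 2 * (q.1 - mm L N) ^ 2) * 1 := by intro q; ring
    simp only [e]
    rw [integral_prod_mul (fun x => al L N ^ 2 * (x - mm L N) ^ 2) (fun _ => (1 : ℝ)),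
      integral_const_mul, al_sq hL hN]
    have : ∫ x, (x - mm L N) ^ 2 ∂(rq L N) = vv L N := rfl
    rw [this]
    simp
    field_simp
  · simp only [e0, e1]
    have e : ∀ q : ℝ × (Fin (2 * N ^ 2) → ℝ), al L N * (q.1 - mm L N) *
        (ka L N * (1 - aa L N * q.1) * (q.2 j' - 1)) =
        (al L N * (q.1 - mm L N) * (ka L N * (1 - aa L N * q.1))) * (q.2 j' - 1) := by
      intro q; ring
    simp only [e]
    rw [integral_prod_mul (fun x => al L N * (x - mm L N) * (ka L N * (1 - aa L N * x)))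
      (fun z : Fin (2 * N ^ 2) → ℝ => z j' - 1), integral_pi_one, mul_zero]
    rw [if_neg (Fin.succ_ne_zero j').symm]
  · simp only [e0, e1]
    have e : ∀ q : ℝ × (Fin (2 * N ^ 2) → ℝ), 
        (ka L N * (1 - aa L N * q.1) * (q.2 i' - 1)) * (al L N * (q.1 - mm L N)) =
        (al L N * (q.1 - mm L N) * (ka L N * (1 - aa L N * q.1))) * (q.2 i' - 1) := by
      intro q; ring
    simp only [e]
    rw [integral_prod_mul (fun x => al L N * (x - mm L N) * (ka L N * (1 - aa L N * x)))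
      (fun z : Fin (2 * N ^ 2) → ℝ => z i' - 1), integral_pi_one, mul_zero]
    rw [if_neg (Fin.succ_ne_zero i')]
  · simp only [e1]
    have e : ∀ q : ℝ × (Fin (2 * N ^ 2) → ℝ), 
        (ka L N * (1 - aa L N * q.1) * (q.2 i' - 1)) * (ka L N * (1 - aa L N * q.1) * (q.2 j' - 1)) =
        (ka L N ^ 2 * (1 - aa L N * q.1) ^ 2) * ((q.2 i' - 1) * (q.2 j' - 1)) := by
      intro q; ring
    simp only [e]
    rw [integral_prod_mul (fun x => ka L N ^ 2 * (1 - aa L N * x) ^ 2)
      (fun z : Fin (2 * N ^ 2) → ℝ => (z i' - 1) * (z j' - 1)), integral_pi_two,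
      integral_const_mul, ka_sq hL hN]
    have : ∫ x, (1 - aa L N * x) ^ 2 ∂(rq L N) = ww L N := rfl
    rw [this]
    by_cases h : i' = j'
    · rw [if_pos h, if_pos (by rw [h])]
      field_simp
    · rw [if_neg h, if_neg (by rwa [Fin.succ_inj]), mul_zero]

theorem lsi_pim (hL : 1 ≤ L) (hN : 36 * L ^ 3 ≤ N)
    {f : EuclideanSpace ℝ (Fin (2 * N ^ 2 + 1)) → ℝ} (hf : ContDiff ℝ 1 f) :
    ent (pim L N) (fun x => f x ^ 2) ≤ 21000 * L * ∫ x, ‖gradient f x‖ ^ 2 ∂(pim L N) := by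
  have hL0 : 0 < L := by linarith
  have hN0 := N_pos hL hN
  have h := lsi_piM (n := 2 * N ^ 2) (L := L) (a := aa L N) (β := bb L N) (α := al L N)
    (κ := ka L N) (m := mm L N) hL0 (aa_pos hL hN).le (aa_L_lt_one hL hN)
    (c := 2 * (16 * L + 61)) (by positivity) (by
      intro f hf
      have := lsi_rho hL0 (continuous_pq (L := L) (N := N)) (b0 := 1 / 2) (b1 := 1) (by norm_num)
        (fun x hx => pq_ge hL hN hx) (fun x hx => by rw [one_mul]; exact pq_le hL hN hx) hf
      refine this.trans (le_of_eq ?_)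
      norm_num
      left
      rfl) hf
  refine h.trans ?_
  have hI : 0 ≤ ∫ x, ‖gradient f x‖ ^ 2 ∂(pim L N) := integral_nonneg fun x => sq_nonneg _
  apply mul_le_mul_of_nonneg_right _ hI
  obtain ⟨_, ha2⟩ := al_bounds hL hN
  obtain ⟨_, hk2⟩ := ka_bounds hL hN
  have e : (ka L N * aa L N) ^ 2 * ((2 * N ^ 2 : ℕ) : ℝ) = ka L N ^ 2 / (2 * L ^ 2) := by
    unfold aa
    push_cast
    field_simp
  rw [e]
  have h1 : ka L N ^ 2 / (2 * L ^ 2) ≤ 6 := by
    rw [div_le_iff₀ (by positivity)]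
    have : 1 ≤ L ^ 2 := one_le_pow₀ hL
    linarith
  have h2 : 2 * (16 * L + 61) * (al L N ^ 2 + ka L N ^ 2 / (2 * L ^ 2)) ≤
      2 * (16 * L + 61) * 78 := by
    gcongr
    linarith
  linarith

theorem tau_eq (hL : 1 ≤ L) (hN : 36 * L ^ 3 ≤ N) (x : ℝ) :
    (ka L N * (1 - aa L N * x)) ^ 2 / (2 * hh L N) = TT L N * (1 - aa L N * x) ^ 2 := by
  have hw := ww_ge hL hN
  have hN0 := N_pos hL hN
  have hL0 : 0 < L := by linarith
  have hw0 : ww L N ≠ 0 := by positivity
  rw [mul_pow, ka_sq hL hN]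
  unfold hh TT
  field_simp

theorem gauss_bounds (hL : 1 ≤ L) (hN : 36 * L ^ 3 ≤ N) {x : ℝ} (hx : x ∈ Icc 0 L) :
    Real.exp (-1) ≤ Real.exp (-((al L N * (x - mm L N)) ^ 2 / (2 * hh L N))) ∧
      Real.exp (-((al L N * (x - mm L N)) ^ 2 / (2 * hh L N))) ≤ 1 := by
  have hh0 := hh_pos hL hN
  have hw1 := ww_le hL hN
  have hw := ww_ge hL hN
  have hw0 : 0 < ww L N := by linarith
  have hN0 := N_pos hL hN
  have hL0 : 0 < L := by linarith
  obtain ⟨_, ha2⟩ := al_bounds hL hN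
  obtain ⟨hm1, hm2⟩ := mm_mem hL hN
  constructor
  · apply Real.exp_le_exp.mpr
    have h1 : (al L N * (x - mm L N)) ^ 2 ≤ 72 * L ^ 2 := by
      rw [mul_pow]
      have : (x - mm L N) ^ 2 ≤ L ^ 2 := by
        apply sq_le_sq'
        · linarith [hx.1]
        · linarith [hx.2]
      gcongr
    have h2 : (al L N * (x - mm L N)) ^ 2 / (2 * hh L N) ≤ 1 := by
      rw [div_le_one (by positivity)]
      have h3 : 72 * L ^ 2 ≤ 2 * hh L N := by
        unfold hh
        rw [← mul_div_assoc, le_div_iff₀ (by positivity)]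
        calc 72 * L ^ 2 * (L * ww L N) ≤ 72 * L ^ 2 * (L * 1) := by gcongr
          _ = 2 * (36 * L ^ 3) := by ring
          _ ≤ 2 * N := by linarith
      linarith
    linarith
  · apply Real.exp_le_one_iff.mpr
    have : 0 ≤ (al L N * (x - mm L N)) ^ 2 / (2 * hh L N) := by positivity
    linarith

/-- quadratic lower bound for the tilted measure -/
theorem tilt_pim (hL : 1 ≤ L) (hN : 36 * L ^ 3 ≤ N) (A : ℝ) :
    L ^ 2 / 6000 ≤ ∫ w, (w 0 + al L N * mm L N - A) ^ 2
      ∂((pim L N).tilted (fun w => -‖w‖ ^ 2 / (2 * hh L N))) := by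
  have hL0 : 0 < L := by linarith
  have hN0 := N_pos hL hN
  obtain ⟨hT0, hT1, hT2⟩ := TT_bounds hL hN
  have hgT : 0 < gg (TT L N) := by
    have := gg_ge (τ := TT L N); linarith
  set G := gg (TT L N) ^ (2 * N ^ 2) with hG
  have hG0 : 0 < G := by positivity
  have hr : ∀ x, WW (2 * N ^ 2) (aa L N) (al L N) (ka L N) (mm L N) (hh L N) x =
      Real.exp (-((al L N * (x - mm L N)) ^ 2 / (2 * hh L N))) *
        gg (TT L N * (1 - aa L N * x) ^ 2) ^ (2 * N ^ 2) := by
    intro x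
    unfold WW
    rw [tau_eq hL hN]
  have key := tilt_lower (n := 2 * N ^ 2) (L := L) (a := aa L N) (β := bb L N) (α := al L N)
    (κ := ka L N) (m := mm L N) hL0 (aa_pos hL hN).le (aa_L_lt_one hL hN) (hh L N)
    (r0 := 1 / 2 * Real.exp (-2) * G) (K := 2 * Real.exp 3) (by positivity) (by positivity)
    (by
      intro x hx
      rw [hr]
      have h1 := pq_ge hL hN hx
      have h2 := (gauss_bounds hL hN hx).1
      have h3 := ratio_lower hL hN hx
      have hp : 0 < pq L N x := pq_pos hL hN x hx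
      calc 1 / 2 * Real.exp (-2) * G = (1 / 2 * Real.exp (-x)) *
            (Real.exp (-1) * (G * Real.exp (x - 1))) := by
            have : Real.exp (-2) = Real.exp (-x) * Real.exp (-1) * Real.exp (x - 1) := by
              rw [← Real.exp_add, ← Real.exp_add]; congr 1; ring
            rw [this]; ring
        _ ≤ pq L N x * (Real.exp (-((al L N * (x - mm L N)) ^ 2 / (2 * hh L N))) *
            gg (TT L N * (1 - aa L N * x) ^ 2) ^ (2 * N ^ 2)) := by
            gcongr)
    (by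
      intro x hx
      rw [hr]
      have h1 := pq_le hL hN hx
      have h2 := (gauss_bounds hL hN hx).2
      have h3 := ratio_upper hL hN hx
      have hp : 0 < pq L N x := pq_pos hL hN x hx
      have hgx : 0 < gg (TT L N * (1 - aa L N * x) ^ 2) := by
        have := gg_ge (τ := TT L N * (1 - aa L N * x) ^ 2)
        have ha := aa_pos hL hN
        have haL := aa_L_lt hL hN
        have hax0 : 0 ≤ aa L N * x := mul_nonneg ha.le hx.1
        have haxL : aa L N * x ≤ aa L N * L := by gcongr; exact hx.2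
        have hsq : (1 - aa L N * x) ^ 2 ≤ 1 := by nlinarith
        have : TT L N * (1 - aa L N * x) ^ 2 ≤ TT L N * 1 := by gcongr
        linarith
      calc pq L N x * (Real.exp (-((al L N * (x - mm L N)) ^ 2 / (2 * hh L N))) *
            gg (TT L N * (1 - aa L N * x) ^ 2) ^ (2 * N ^ 2))
          ≤ Real.exp (-x) * (1 * (G * Real.exp (x + 1))) := by
            gcongr
        _ = 2 * Real.exp 3 * (1 / 2 * Real.exp (-2) * G) := by
            have e1 : Real.exp (-x) * Real.exp (x + 1) = Real.exp 1 := by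
              rw [← Real.exp_add]; congr 1; ring
            have e2 : Real.exp 3 * Real.exp (-2) = Real.exp 1 := by
              rw [← Real.exp_add]; norm_num
            calc Real.exp (-x) * (1 * (G * Real.exp (x + 1))) =
                  (Real.exp (-x) * Real.exp (x + 1)) * G := by ring
              _ = (Real.exp 3 * Real.exp (-2)) * G := by rw [e1, e2]
              _ = _ := by ring) A
  refine le_trans ?_ key
  obtain ⟨ha1, _⟩ := al_bounds hL hN
  have he : Real.exp 3 ≤ 20.8 := by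
    have h1 : Real.exp 1 < 2.7182818286 := Real.exp_one_lt_d9
    have h2 : Real.exp 3 = Real.exp 1 * Real.exp 1 * Real.exp 1 := by
      rw [← Real.exp_add, ← Real.exp_add]; norm_num
    have h3 : Real.exp 1 * Real.exp 1 ≤ 2.72 * 2.72 := by
      gcongr <;> linarith
    rw [h2]
    calc Real.exp 1 * Real.exp 1 * Real.exp 1 ≤ (2.72 * 2.72) * 2.72 := by
          gcongr
          linarith
      _ ≤ 20.8 := by norm_num
  rw [div_le_div_iff₀ (by norm_num) (by positivity)]
  have h5 : L ^ 2 * (12 * (2 * Real.exp 3)) ≤ L ^ 2 * (12 * (2 * 20.8)) := by gcongr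
  have h6 : 1 / 12 * L ^ 2 * 6000 ≤ al L N ^ 2 * L ^ 2 * 6000 := by gcongr
  nlinarith [sq_nonneg L]

end final

end Pool.Agent.helper96
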